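import Mathlib

/-!
# Sums over divisors
-/

set_option autoImplicit false

namespace Pool.Agent.H49TW

open Finset

theorem harm (n : ℕ) : ∑ d ∈ Icc 1 n, (1 / (d : ℝ)) ≤ 1 + Real.log n := by
  have h := harmonic_le_one_add_log n
  rw [harmonic_eq_sum_Icc] at h
  push_cast at h
  simpa using h

theorem harm_le {n m : ℕ} (hn : 1 ≤ n) (h : n ≤ m) : 1 + Real.log n ≤ 1 + Real.log m := by
  have : (1 : ℝ) ≤ n := by exact_mod_cast hn
  have := Real.log_le_log (by linarith) (show (n : ℝ) ≤ m by exact_mod_cast h)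
  linarith

/-- the divisor sum -/
theorem sum_div (Z : ℕ) : (∑ M ∈ Icc 1 Z, (M.divisors.card : ℝ)) ≤ Z * (1 + Real.log Z) := by
  have h1 : ∀ M ∈ Icc 1 Z, (M.divisors.card : ℝ) = ∑ u ∈ Icc 1 Z, if u ∣ M then (1 : ℝ) else 0 := by
    intro M hM
    rw [mem_Icc] at hM
    rw [← Finset.sum_filter, Finset.sum_const, nsmul_eq_mul, mul_one]
    congr 2
    ext u
    rw [Nat.mem_divisors, mem_filter, mem_Icc]
    constructor
    · rintro ⟨h1, h2⟩
      have := Nat.le_of_dvd (by omega) h1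
      exact ⟨⟨Nat.pos_of_dvd_of_pos h1 (by omega), by omega⟩, h1⟩
    · rintro ⟨h1, h2⟩
      exact ⟨h2, by omega⟩
  rw [Finset.sum_congr rfl h1, Finset.sum_comm]
  have h2 : ∀ u ∈ Icc 1 Z, (∑ M ∈ Icc 1 Z, if u ∣ M then (1 : ℝ) else 0) ≤ Z * (1 / (u : ℝ)) := by
    intro u hu
    rw [mem_Icc] at hu
    rw [← Finset.sum_filter, Finset.sum_const, nsmul_eq_mul, mul_one]
    have h3 : (Icc 1 Z).filter (fun M => u ∣ M) = (Ioc 0 Z).filter (fun M => u ∣ M) := by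
      ext M
      simp only [mem_filter, mem_Icc, mem_Ioc]
      constructor <;> (rintro ⟨⟨h4, h5⟩, h6⟩; exact ⟨⟨by omega, h5⟩, h6⟩)
    rw [h3, Nat.Ioc_filter_dvd_card_eq_div, mul_one_div]
    exact Nat.cast_div_le
  refine (Finset.sum_le_sum h2).trans ?_
  rw [← Finset.mul_sum]
  exact mul_le_mul_of_nonneg_left (harm Z) (by positivity)

/-- the index set -/
def W (Y : ℕ) : Finset (ℕ × ℕ × ℕ) :=
  (Icc 1 Y ×ˢ (Icc 1 Y ×ˢ Icc 1 Y)).filter (fun w => w.1 * w.2.1 * w.2.2 ≤ Y)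

theorem mem_W {Y a b c : ℕ} : (a, b, c) ∈ W Y ↔ 1 ≤ a ∧ 1 ≤ b ∧ 1 ≤ c ∧ a * b * c ≤ Y := by
  unfold W
  simp only [mem_filter, mem_product, mem_Icc]
  constructor
  · rintro ⟨⟨⟨h1, -⟩, ⟨h2, -⟩, ⟨h3, -⟩⟩, h4⟩
    exact ⟨h1, h2, h3, h4⟩
  · rintro ⟨h1, h2, h3, h4⟩
    have k1 : a ≤ Y := by
      refine le_trans ?_ h4
      rw [mul_assoc]
      exact Nat.le_mul_of_pos_right a (by positivity)
    have k2 : b ≤ Y := by
      refine le_trans ?_ h4
      rw [mul_comm a b, mul_assoc]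
      exact Nat.le_mul_of_pos_right b (by positivity)
    have k3 : c ≤ Y := by
      refine le_trans ?_ h4
      exact Nat.le_mul_of_pos_left c (by positivity)
    exact ⟨⟨⟨h1, k1⟩, ⟨h2, k2⟩, ⟨h3, k3⟩⟩, h4⟩

theorem sum_W (Y : ℕ) : (∑ w ∈ W Y, (w.2.2.divisors.card : ℝ)) ≤ Y * (1 + Real.log Y) ^ 3 := by
  rcases Nat.eq_zero_or_pos Y with h0 | hY
  · subst h0
    have : W 0 = ∅ := by
      ext ⟨a, b, c⟩
      rw [mem_W]
      constructor
      · rintro ⟨h1, h2, h3, h4⟩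
        have : 0 < a * b * c := by positivity
        omega
      · intro h; simp at h
    rw [this]
    simp
  have hL : 0 ≤ 1 + Real.log Y := by
    have := Real.log_nonneg (show (1 : ℝ) ≤ Y by exact_mod_cast hY)
    linarith
  have h1 : (∑ w ∈ W Y, (w.2.2.divisors.card : ℝ)) ≤
      ∑ a ∈ Icc 1 Y, ∑ b ∈ Icc 1 Y, ∑ c ∈ Icc 1 (Y / (a * b)), (c.divisors.card : ℝ) := by
    have e1 : (∑ a ∈ Icc 1 Y, ∑ b ∈ Icc 1 Y, ∑ c ∈ Icc 1 (Y / (a * b)), (c.divisors.card : ℝ)) =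
        ∑ w ∈ (Icc 1 Y ×ˢ Icc 1 Y).sigma (fun p => Icc 1 (Y / (p.1 * p.2))),
          (w.2.divisors.card : ℝ) := by
      rw [Finset.sum_sigma, Finset.sum_product]
    rw [e1]
    have hinj : Set.InjOn (fun w : ℕ × ℕ × ℕ => (⟨(w.1, w.2.1), w.2.2⟩ : (_ : ℕ × ℕ) × ℕ)) (W Y) := by
      rintro ⟨a, b, c⟩ - ⟨a', b', c'⟩ - h
      simp only [Sigma.mk.injEq, Prod.mk.injEq, heq_eq_eq] at h
      obtain ⟨⟨rfl, rfl⟩, rfl⟩ := h
      rfl
    have e2 : (∑ w ∈ W Y, (w.2.2.divisors.card : ℝ)) =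
        ∑ w ∈ (W Y).image (fun w : ℕ × ℕ × ℕ => (⟨(w.1, w.2.1), w.2.2⟩ : (_ : ℕ × ℕ) × ℕ)),
          (w.2.divisors.card : ℝ) := by
      rw [Finset.sum_image hinj]
    rw [e2]
    apply Finset.sum_le_sum_of_subset_of_nonneg
    · intro w hw
      rw [mem_image] at hw
      obtain ⟨⟨a, b, c⟩, h, rfl⟩ := hw
      have h' := h
      rw [mem_W] at h'
      obtain ⟨k1, k2, k3, k4⟩ := h'
      unfold W at h
      simp only [mem_filter, mem_product, mem_Icc] at h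
      simp only [mem_sigma, mem_product, mem_Icc]
      refine ⟨⟨h.1.1, h.1.2.1⟩, k3, ?_⟩
      rw [Nat.le_div_iff_mul_le (by positivity)]
      calc c * (a * b) = a * b * c := by ring
        _ ≤ Y := k4
    · intro _ _ _
      positivity
  refine h1.trans ?_
  have h2 : ∀ a ∈ Icc 1 Y, ∀ b ∈ Icc 1 Y, ∑ c ∈ Icc 1 (Y / (a * b)), (c.divisors.card : ℝ) ≤
      Y * (1 + Real.log Y) * (1 / (a : ℝ)) * (1 / (b : ℝ)) := by
    intro a ha b hb
    rw [mem_Icc] at ha hb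
    have ha0 : (0 : ℝ) < a := by exact_mod_cast ha.1
    have hb0 : (0 : ℝ) < b := by exact_mod_cast hb.1
    refine (sum_div _).trans ?_
    rcases Nat.eq_zero_or_pos (Y / (a * b)) with h0 | hp
    · rw [h0]
      simp only [Nat.cast_zero, zero_mul]
      positivity
    · have k1 : 1 + Real.log ((Y / (a * b) : ℕ) : ℝ) ≤ 1 + Real.log Y :=
        harm_le hp (Nat.div_le_self _ _)
      have k2 : ((Y / (a * b) : ℕ) : ℝ) ≤ Y / ((a : ℝ) * b) := by
        have := @Nat.cast_div_le ℝ _ _ _ Y (a * b)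
        push_cast at this
        exact this
      have k3 : 0 ≤ 1 + Real.log ((Y / (a * b) : ℕ) : ℝ) := by
        have := Real.log_nonneg (show (1 : ℝ) ≤ ((Y / (a * b) : ℕ) : ℝ) by exact_mod_cast hp)
        linarith
      calc ((Y / (a * b) : ℕ) : ℝ) * (1 + Real.log ((Y / (a * b) : ℕ) : ℝ)) ≤
            (Y / ((a : ℝ) * b)) * (1 + Real.log Y) :=
            mul_le_mul k2 k1 k3 (by positivity)
        _ = _ := by field_simp
  refine (Finset.sum_le_sum fun a ha => Finset.sum_le_sum fun b hb => h2 a ha b hb).trans ?_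
  have h3 : ∀ a ∈ Icc 1 Y, ∑ b ∈ Icc 1 Y, Y * (1 + Real.log Y) * (1 / (a : ℝ)) * (1 / (b : ℝ)) ≤
      Y * (1 + Real.log Y) ^ 2 * (1 / (a : ℝ)) := by
    intro a ha
    rw [← Finset.mul_sum]
    have := mul_le_mul_of_nonneg_left (harm Y)
      (show 0 ≤ (Y : ℝ) * (1 + Real.log Y) * (1 / (a : ℝ)) by positivity)
    refine this.trans (le_of_eq (by ring))
  refine (Finset.sum_le_sum h3).trans ?_
  rw [← Finset.mul_sum]
  have := mul_le_mul_of_nonneg_left (harm Y) (show 0 ≤ (Y : ℝ) * (1 + Real.log Y) ^ 2 by positivity)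
  refine this.trans (le_of_eq (by ring))

theorem sum_sqrt (Q : ℕ) : ∑ d ∈ Icc 1 Q, (1 / √(d : ℝ)) ≤ 2 * √(Q : ℝ) := by
  induction Q with
  | zero => simp
  | succ n ih =>
    rw [Finset.sum_Icc_succ_top (by omega)]
    have h1 : 1 / √((n + 1 : ℕ) : ℝ) ≤ 2 * √((n + 1 : ℕ) : ℝ) - 2 * √(n : ℝ) := by
      obtain ⟨u, hu⟩ : ∃ u, u = √((n + 1 : ℕ) : ℝ) := ⟨_, rfl⟩
      obtain ⟨v, hv⟩ : ∃ v, v = √(n : ℝ) := ⟨_, rfl⟩
      have hu2 : u ^ 2 = n + 1 := by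
        rw [hu, Real.sq_sqrt (by positivity)]; push_cast; ring
      have hv2 : v ^ 2 = n := by rw [hv, Real.sq_sqrt (by positivity)]
      have hup : 0 < u := by rw [hu]; positivity
      have hvp : 0 ≤ v := by rw [hv]; positivity
      rw [← hu, ← hv, div_le_iff₀ hup]
      nlinarith [sq_nonneg (u - v)]
    linarith

end Pool.Agent.H49TW
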