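import Mathlib

/-!
# Integral points of quadratic twists: the factorization

`D` is squarefree and `y ^ 2 = (x - e₁ D) (x - e₂ D) (x - e₃ D)` with `y ≠ 0`.
-/

set_option autoImplicit false

namespace Pool.Agent.H49TW

theorem sqf_unique {a b u v : ℕ} (ha : Squarefree a) (hb : Squarefree b) (hu : u ≠ 0) (hv : v ≠ 0)
    (h : a * u ^ 2 = b * v ^ 2) : a = b := by
  apply Nat.eq_of_factorization_eq ha.ne_zero hb.ne_zero
  intro p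
  have h1 := congrArg (fun n => n.factorization p) h
  rw [Nat.factorization_mul ha.ne_zero (pow_ne_zero 2 hu), Nat.factorization_mul hb.ne_zero
    (pow_ne_zero 2 hv), Nat.factorization_pow, Nat.factorization_pow] at h1
  simp only [Finsupp.add_apply, Finsupp.smul_apply, smul_eq_mul] at h1
  have h2 := ha.natFactorization_le_one p
  have h3 := hb.natFactorization_le_one p
  omega

/-- three squarefree numbers whose product is a square -/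
theorem three {s₁ s₂ s₃ w : ℕ} (h1 : Squarefree s₁) (h2 : Squarefree s₂) (h3 : Squarefree s₃)
    (h : s₁ * s₂ * s₃ = w ^ 2) : ∃ a b c : ℕ, s₁ = b * c ∧ s₂ = a * c ∧ s₃ = a * b ∧
      a.Coprime b ∧ a.Coprime c ∧ b.Coprime c := by
  obtain ⟨c, hc⟩ : ∃ c, c = Nat.gcd s₁ s₂ := ⟨_, rfl⟩
  have hs1 : s₁ ≠ 0 := h1.ne_zero
  have hc0 : 0 < c := by rw [hc]; exact Nat.gcd_pos_of_pos_left _ (Nat.pos_of_ne_zero hs1)
  obtain ⟨b, hb⟩ : c ∣ s₁ := hc ▸ Nat.gcd_dvd_left _ _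
  obtain ⟨a, ha⟩ : c ∣ s₂ := hc ▸ Nat.gcd_dvd_right _ _
  have hab : a.Coprime b := by
    have h4 : Nat.gcd (c * b) (c * a) = c := by rw [← hb, ← ha, ← hc]
    rw [Nat.gcd_mul_left] at h4
    have h5 : Nat.gcd b a = 1 := by
      have : c * Nat.gcd b a = c * 1 := by rw [h4, mul_one]
      exact Nat.eq_of_mul_eq_mul_left hc0 this
    rw [Nat.Coprime, Nat.gcd_comm]
    exact h5
  have hcb : c.Coprime b := by
    rw [hb] at h1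
    exact Nat.coprime_of_squarefree_mul h1
  have hca : c.Coprime a := by
    rw [ha] at h2
    exact Nat.coprime_of_squarefree_mul h2
  have hsab : Squarefree (a * b) := by
    rw [Nat.squarefree_mul hab]
    refine ⟨?_, ?_⟩
    · rw [ha] at h2
      exact h2.of_mul_right
    · rw [hb] at h1
      exact h1.of_mul_right
  have hw : w ≠ 0 := by
    rintro rfl
    have h4 : s₁ * s₂ * s₃ ≠ 0 := mul_ne_zero (mul_ne_zero hs1 h2.ne_zero) h3.ne_zero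
    rw [h] at h4
    simp at h4
  have h5 : a * b = s₃ := by
    apply sqf_unique hsab h3 (u := c * s₃) (v := w) (mul_ne_zero hc0.ne' h3.ne_zero) hw
    rw [← h, hb, ha]
    ring
  exact ⟨a, b, c, by rw [hb, mul_comm], by rw [ha, mul_comm], h5.symm, hab, hca.symm, hcb.symm⟩

theorem sq_part {n t w : ℕ} (ht : t ≠ 0) (h : n * t ^ 2 = w ^ 2) : ∃ v : ℕ, n = v ^ 2 := by
  have h1 : t ^ 2 ∣ w ^ 2 := ⟨n, by rw [← h, mul_comm]⟩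
  have h2 : t ∣ w := (Nat.pow_dvd_pow_iff (by norm_num)).1 h1
  obtain ⟨v, rfl⟩ := h2
  refine ⟨v, ?_⟩
  have h3 : t ^ 2 * n = t ^ 2 * v ^ 2 := by rw [mul_comm, h, mul_pow]
  exact Nat.eq_of_mul_eq_mul_left (by positivity) h3

/-- the common part of `δ` and `D` -/
theorem split_gcd {δ D : ℕ} (hδ : Squarefree δ) : ∃ c d : ℕ, δ = c * d ∧ d ∣ D ∧ c.Coprime D ∧
    c.Coprime d := by
  have h1 := Nat.gcd_dvd_left δ D
  obtain ⟨c, hc⟩ := h1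
  have h2 : (Nat.gcd δ D).Coprime c := by
    have : Squarefree (Nat.gcd δ D * c) := hc ▸ hδ
    exact Nat.coprime_of_squarefree_mul this
  refine ⟨c, Nat.gcd δ D, by rw [mul_comm]; exact hc, Nat.gcd_dvd_right _ _, ?_, h2.symm⟩
  have h3 : Nat.gcd c D ∣ Nat.gcd δ D := by
    apply Nat.gcd_dvd_gcd_of_dvd_left
    exact ⟨Nat.gcd δ D, by rw [mul_comm]; exact hc⟩
  have h4 : Nat.gcd c D ∣ Nat.gcd (Nat.gcd δ D) c := Nat.dvd_gcd h3 (Nat.gcd_dvd_left _ _)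
  rw [h2] at h4
  exact Nat.dvd_one.1 h4

/-- `d ∣ t` for a prime part `d` of `D` -/
theorem dvd_root {d s t : ℕ} {X Y e D : ℤ} (hd : Squarefree d) (hs : s.Coprime d)
    (hX : X.natAbs = s * t ^ 2) (hY : (d : ℤ) ∣ Y) (hD : (d : ℤ) ∣ D) (h : X - Y = e * D) : d ∣ t := by
  have h1 : (d : ℤ) ∣ X := by
    have : X = Y + e * D := by linarith
    rw [this]
    exact dvd_add hY (hD.mul_left _)
  have h2 : d ∣ s * t ^ 2 := by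
    rw [← hX]
    exact Int.natCast_dvd.1 h1
  have h3 : d ∣ t ^ 2 := (Nat.Coprime.dvd_of_dvd_mul_left hs.symm h2)
  exact (hd.dvd_pow_iff_dvd (by norm_num)).1 h3

/-- The data attached to an integral point. -/
structure Data (e₁ e₂ e₃ D x : ℤ) (σ₁ σ₂ σ₃ : ℤ) (c₁ c₂ c₃ d₁ d₂ d₃ : ℕ) (m : ℤ)
    (x₁ x₂ x₃ : ℕ) : Prop where
  s1 : σ₁ = 1 ∨ σ₁ = -1
  s2 : σ₂ = 1 ∨ σ₂ = -1
  s3 : σ₃ = 1 ∨ σ₃ = -1
  c1 : (c₁ : ℤ) ∣ e₃ - e₂
  c2 : (c₂ : ℤ) ∣ e₃ - e₁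
  c3 : (c₃ : ℤ) ∣ e₂ - e₁
  p1 : 0 < x₁
  p2 : 0 < x₂
  p3 : 0 < x₃
  hD : D = d₁ * d₂ * d₃ * m
  sqm : Squarefree m
  X1 : x - e₁ * D = (d₁ * d₂ * d₃) * (σ₁ * (c₂ * c₃ * d₁ : ℕ) * x₁ ^ 2)
  X2 : x - e₂ * D = (d₁ * d₂ * d₃) * (σ₂ * (c₁ * c₃ * d₂ : ℕ) * x₂ ^ 2)
  X3 : x - e₃ * D = (d₁ * d₂ * d₃) * (σ₃ * (c₁ * c₂ * d₃ : ℕ) * x₃ ^ 2)
  q1 : Squarefree (c₂ * c₃ * d₁)
  q2 : Squarefree (c₁ * c₃ * d₂)
  q3 : Squarefree (c₁ * c₂ * d₃)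
  r1 : m.natAbs.Coprime (c₂ * c₃ * d₁)
  r2 : m.natAbs.Coprime (c₁ * c₃ * d₂)
  r3 : m.natAbs.Coprime (c₁ * c₂ * d₃)

theorem sign_abs (X : ℤ) (hX : X ≠ 0) : ∃ σ : ℤ, (σ = 1 ∨ σ = -1) ∧ X = σ * X.natAbs := by
  rcases lt_or_gt_of_ne hX with h | h
  · exact ⟨-1, Or.inr rfl, by omega⟩
  · exact ⟨1, Or.inl rfl, by omega⟩

theorem cop_of_squarefree {d m D : ℤ} (hD : Squarefree D) (h : D = d * m) :
    m.natAbs.Coprime d.natAbs := by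
  have h1 : Squarefree (d.natAbs * m.natAbs) := by
    rw [← Int.natAbs_mul, ← h]
    exact Int.squarefree_natAbs.2 hD
  exact (Nat.coprime_of_squarefree_mul h1).symm

theorem exists_data {e₁ e₂ e₃ D x y : ℤ} (hD : Squarefree D) (hy : y ≠ 0)
    (h : y ^ 2 = (x - e₁ * D) * (x - e₂ * D) * (x - e₃ * D)) :
    ∃ (σ₁ σ₂ σ₃ : ℤ) (c₁ c₂ c₃ d₁ d₂ d₃ : ℕ) (m : ℤ) (x₁ x₂ x₃ : ℕ),
      Data e₁ e₂ e₃ D x σ₁ σ₂ σ₃ c₁ c₂ c₃ d₁ d₂ d₃ m x₁ x₂ x₃ := by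
  obtain ⟨X₁, hX1⟩ : ∃ X, X = x - e₁ * D := ⟨_, rfl⟩
  obtain ⟨X₂, hX2⟩ : ∃ X, X = x - e₂ * D := ⟨_, rfl⟩
  obtain ⟨X₃, hX3⟩ : ∃ X, X = x - e₃ * D := ⟨_, rfl⟩
  rw [← hX1, ← hX2, ← hX3] at h
  have hne : X₁ * X₂ * X₃ ≠ 0 := by rw [← h]; exact pow_ne_zero 2 hy
  have hn1 : X₁ ≠ 0 := fun h0 => hne (by rw [h0]; ring)
  have hn2 : X₂ ≠ 0 := fun h0 => hne (by rw [h0]; ring)
  have hn3 : X₃ ≠ 0 := fun h0 => hne (by rw [h0]; ring)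
  obtain ⟨s₁, t₁, hst1, hs1⟩ := Nat.sq_mul_squarefree X₁.natAbs
  obtain ⟨s₂, t₂, hst2, hs2⟩ := Nat.sq_mul_squarefree X₂.natAbs
  obtain ⟨s₃, t₃, hst3, hs3⟩ := Nat.sq_mul_squarefree X₃.natAbs
  have ht1 : t₁ ≠ 0 := by
    rintro rfl
    exact hn1 (Int.natAbs_eq_zero.1 (by rw [← hst1]; simp))
  have ht2 : t₂ ≠ 0 := by
    rintro rfl
    exact hn2 (Int.natAbs_eq_zero.1 (by rw [← hst2]; simp))
  have ht3 : t₃ ≠ 0 := by
    rintro rfl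
    exact hn3 (Int.natAbs_eq_zero.1 (by rw [← hst3]; simp))
  have hprod : (s₁ * s₂ * s₃) * (t₁ * t₂ * t₃) ^ 2 = y.natAbs ^ 2 := by
    have h1 : y.natAbs ^ 2 = X₁.natAbs * X₂.natAbs * X₃.natAbs := by
      rw [← Int.natAbs_pow, h, Int.natAbs_mul, Int.natAbs_mul]
    rw [h1, ← hst1, ← hst2, ← hst3]
    ring
  obtain ⟨w, hw⟩ := sq_part (mul_ne_zero (mul_ne_zero ht1 ht2) ht3) hprod
  obtain ⟨a, b, c, e1, e2, e3, hab, hac, hbc⟩ := three hs1 hs2 hs3 hw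
  have hsa : Squarefree a := by rw [e2] at hs2; exact hs2.of_mul_left
  have hsb : Squarefree b := by rw [e1] at hs1; exact hs1.of_mul_left
  have hsc : Squarefree c := by rw [e1] at hs1; exact hs1.of_mul_right
  obtain ⟨c₁, d₁, ha, hd1, hc1, hcd1⟩ := split_gcd (D := D.natAbs) hsa
  obtain ⟨c₂, d₂, hb, hd2, hc2, hcd2⟩ := split_gcd (D := D.natAbs) hsb
  obtain ⟨c₃, d₃, hc, hd3, hc3, hcd3⟩ := split_gcd (D := D.natAbs) hsc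
  have hD1 : (d₁ : ℤ) ∣ D := Int.natCast_dvd.2 hd1
  have hD2 : (d₂ : ℤ) ∣ D := Int.natCast_dvd.2 hd2
  have hD3 : (d₃ : ℤ) ∣ D := Int.natCast_dvd.2 hd3
  have h12 : X₁ - X₂ = (e₂ - e₁) * D := by rw [hX1, hX2]; ring
  have h13 : X₁ - X₃ = (e₃ - e₁) * D := by rw [hX1, hX3]; ring
  have h23 : X₂ - X₃ = (e₃ - e₂) * D := by rw [hX2, hX3]; ring
  have h21 : X₂ - X₁ = (e₁ - e₂) * D := by rw [hX1, hX2]; ring
  have h31 : X₃ - X₁ = (e₁ - e₃) * D := by rw [hX1, hX3]; ring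
  -- divisibility
  have a2 : (a : ℤ) ∣ X₂ := Int.natCast_dvd.2 (by rw [← hst2, e2]; exact ⟨t₂ ^ 2 * c, by ring⟩)
  have a3 : (a : ℤ) ∣ X₃ := Int.natCast_dvd.2 (by rw [← hst3, e3]; exact ⟨t₃ ^ 2 * b, by ring⟩)
  have b1 : (b : ℤ) ∣ X₁ := Int.natCast_dvd.2 (by rw [← hst1, e1]; exact ⟨t₁ ^ 2 * c, by ring⟩)
  have b3 : (b : ℤ) ∣ X₃ := Int.natCast_dvd.2 (by rw [← hst3, e3]; exact ⟨t₃ ^ 2 * a, by ring⟩)
  have k1 : (c : ℤ) ∣ X₁ := Int.natCast_dvd.2 (by rw [← hst1, e1]; exact ⟨t₁ ^ 2 * b, by ring⟩)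
  have k2 : (c : ℤ) ∣ X₂ := Int.natCast_dvd.2 (by rw [← hst2, e2]; exact ⟨t₂ ^ 2 * a, by ring⟩)
  have kc : ∀ {u v : ℕ} {e : ℤ}, (u : ℤ) ∣ e * D → u.Coprime D.natAbs → (u : ℤ) ∣ e := by
    intro u v e h1 h2
    have h3 : IsCoprime (u : ℤ) D := by
      rw [Int.isCoprime_iff_gcd_eq_one, Int.gcd_def]
      simpa using h2
    exact h3.dvd_of_dvd_mul_right h1
  have hcc1 : (c₁ : ℤ) ∣ e₃ - e₂ := by
    apply kc (v := 0) _ hc1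
    rw [← h23]
    have : (c₁ : ℤ) ∣ a := by rw [ha]; push_cast; exact dvd_mul_right _ _
    exact dvd_sub (this.trans a2) (this.trans a3)
  have hcc2 : (c₂ : ℤ) ∣ e₃ - e₁ := by
    apply kc (v := 0) _ hc2
    rw [← h13]
    have : (c₂ : ℤ) ∣ b := by rw [hb]; push_cast; exact dvd_mul_right _ _
    exact dvd_sub (this.trans b1) (this.trans b3)
  have hcc3 : (c₃ : ℤ) ∣ e₂ - e₁ := by
    apply kc (v := 0) _ hc3
    rw [← h12]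
    have : (c₃ : ℤ) ∣ c := by rw [hc]; push_cast; exact dvd_mul_right _ _
    exact dvd_sub (this.trans k1) (this.trans k2)
  -- the roots
  have hda : d₁ ∣ a := ⟨c₁, by rw [ha, mul_comm]⟩
  have hdb : d₂ ∣ b := ⟨c₂, by rw [hb, mul_comm]⟩
  have hdc : d₃ ∣ c := ⟨c₃, by rw [hc, mul_comm]⟩
  have hca : c₁ ∣ a := ⟨d₁, ha⟩
  have hcb : c₂ ∣ b := ⟨d₂, hb⟩
  have hccc : c₃ ∣ c := ⟨d₃, hc⟩
  have r1 : d₁ ∣ t₁ := by
    apply dvd_root (hsa.squarefree_of_dvd hda) (s := b * c) (X := X₁) (Y := X₂) (e := e₂ - e₁)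
      (D := D) _ _ ((Int.natCast_dvd_natCast.2 hda).trans a2) hD1 h12
    · exact (Nat.Coprime.coprime_dvd_right hda (Nat.Coprime.mul_left hab.symm hac.symm))
    · rw [← hst1, e1]; ring
  have r2 : d₂ ∣ t₂ := by
    apply dvd_root (hsb.squarefree_of_dvd hdb) (s := a * c) (X := X₂) (Y := X₁) (e := e₁ - e₂)
      (D := D) _ _ ((Int.natCast_dvd_natCast.2 hdb).trans b1) hD2 h21
    · exact (Nat.Coprime.coprime_dvd_right hdb (Nat.Coprime.mul_left hab hbc.symm))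
    · rw [← hst2, e2]; ring
  have r3 : d₃ ∣ t₃ := by
    apply dvd_root (hsc.squarefree_of_dvd hdc) (s := a * b) (X := X₃) (Y := X₁) (e := e₁ - e₃)
      (D := D) _ _ ((Int.natCast_dvd_natCast.2 hdc).trans k1) hD3 h31
    · exact (Nat.Coprime.coprime_dvd_right hdc (Nat.Coprime.mul_left hac hbc))
    · rw [← hst3, e3]; ring
  obtain ⟨x₁, hx1⟩ := r1
  obtain ⟨x₂, hx2⟩ := r2
  obtain ⟨x₃, hx3⟩ := r3
  -- the quotient
  have hdd12 : d₁.Coprime d₂ := Nat.Coprime.of_dvd hda hdb hab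
  have hdd13 : d₁.Coprime d₃ := Nat.Coprime.of_dvd hda hdc hac
  have hdd23 : d₂.Coprime d₃ := Nat.Coprime.of_dvd hdb hdc hbc
  have hP : d₁ * d₂ * d₃ ∣ D.natAbs :=
    (Nat.Coprime.mul_dvd_of_dvd_of_dvd (Nat.Coprime.mul_left hdd13 hdd23)
      (Nat.Coprime.mul_dvd_of_dvd_of_dvd hdd12 hd1 hd2) hd3)
  obtain ⟨m, hm⟩ : ((d₁ * d₂ * d₃ : ℕ) : ℤ) ∣ D := Int.natCast_dvd.2 hP
  obtain ⟨σ₁, hσ1, hs1X⟩ := sign_abs X₁ hn1
  obtain ⟨σ₂, hσ2, hs2X⟩ := sign_abs X₂ hn2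
  obtain ⟨σ₃, hσ3, hs3X⟩ := sign_abs X₃ hn3
  have hmD : m.natAbs ∣ D.natAbs := by
    rw [hm, Int.natAbs_mul]
    exact dvd_mul_left _ _
  have hmP : m.natAbs.Coprime (d₁ * d₂ * d₃) := by
    have := cop_of_squarefree hD hm
    rwa [Int.natAbs_natCast] at this
  have hm1 : m.natAbs.Coprime d₁ := hmP.coprime_dvd_right ⟨d₂ * d₃, by ring⟩
  have hm2 : m.natAbs.Coprime d₂ := hmP.coprime_dvd_right ⟨d₁ * d₃, by ring⟩
  have hm3 : m.natAbs.Coprime d₃ := hmP.coprime_dvd_right ⟨d₁ * d₂, by ring⟩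
  have hmc1 : m.natAbs.Coprime c₁ := (hc1.coprime_dvd_right hmD).symm
  have hmc2 : m.natAbs.Coprime c₂ := (hc2.coprime_dvd_right hmD).symm
  have hmc3 : m.natAbs.Coprime c₃ := (hc3.coprime_dvd_right hmD).symm
  have sq3 : Squarefree (c₁ * c₂ * d₃) := by
    have i1 : c₁.Coprime c₂ := Nat.Coprime.of_dvd hca hcb hab
    have i2 : c₁.Coprime d₃ := Nat.Coprime.of_dvd hca hdc hac
    have i3 : c₂.Coprime d₃ := Nat.Coprime.of_dvd hcb hdc hbc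
    rw [Nat.squarefree_mul (Nat.Coprime.mul_left i2 i3), Nat.squarefree_mul i1]
    exact ⟨⟨hsa.squarefree_of_dvd hca, hsb.squarefree_of_dvd hcb⟩, hsc.squarefree_of_dvd hdc⟩
  have sq2 : Squarefree (c₁ * c₃ * d₂) := by
    have i1 : c₁.Coprime c₃ := Nat.Coprime.of_dvd hca hccc hac
    have i2 : c₁.Coprime d₂ := Nat.Coprime.of_dvd hca hdb hab
    have i3 : c₃.Coprime d₂ := Nat.Coprime.of_dvd hccc hdb hbc.symm
    rw [Nat.squarefree_mul (Nat.Coprime.mul_left i2 i3), Nat.squarefree_mul i1]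
    exact ⟨⟨hsa.squarefree_of_dvd hca, hsc.squarefree_of_dvd hccc⟩, hsb.squarefree_of_dvd hdb⟩
  have sq1 : Squarefree (c₂ * c₃ * d₁) := by
    have i1 : c₂.Coprime c₃ := Nat.Coprime.of_dvd hcb hccc hbc
    have i2 : c₂.Coprime d₁ := Nat.Coprime.of_dvd hcb hda hab.symm
    have i3 : c₃.Coprime d₁ := Nat.Coprime.of_dvd hccc hda hac.symm
    rw [Nat.squarefree_mul (Nat.Coprime.mul_left i2 i3), Nat.squarefree_mul i1]
    exact ⟨⟨hsb.squarefree_of_dvd hcb, hsc.squarefree_of_dvd hccc⟩, hsa.squarefree_of_dvd hda⟩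
  have hx1p : 0 < x₁ := Nat.pos_of_ne_zero (by rintro rfl; exact ht1 (by rw [hx1, mul_zero]))
  have hx2p : 0 < x₂ := Nat.pos_of_ne_zero (by rintro rfl; exact ht2 (by rw [hx2, mul_zero]))
  have hx3p : 0 < x₃ := Nat.pos_of_ne_zero (by rintro rfl; exact ht3 (by rw [hx3, mul_zero]))
  refine ⟨σ₁, σ₂, σ₃, c₁, c₂, c₃, d₁, d₂, d₃, m, x₁, x₂, x₃, hσ1, hσ2, hσ3, hcc1, hcc2, hcc3,
    hx1p, hx2p, hx3p, by rw [hm]; push_cast; ring, ?_, ?_, ?_, ?_, sq1, sq2, sq3, ?_, ?_, ?_⟩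
  · exact hD.squarefree_of_dvd ⟨((d₁ * d₂ * d₃ : ℕ) : ℤ), by rw [hm, mul_comm]⟩
  · rw [← hX1, hs1X, ← hst1, e1, hb, hc, hx1]
    push_cast
    ring
  · rw [← hX2, hs2X, ← hst2, e2, ha, hc, hx2]
    push_cast
    ring
  · rw [← hX3, hs3X, ← hst3, e3, ha, hb, hx3]
    push_cast
    ring
  · exact Nat.Coprime.mul_right (Nat.Coprime.mul_right hmc2 hmc3) hm1
  · exact Nat.Coprime.mul_right (Nat.Coprime.mul_right hmc1 hmc3) hm2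
  · exact Nat.Coprime.mul_right (Nat.Coprime.mul_right hmc1 hmc2) hm3

end Pool.Agent.H49TW
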