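import Mathlib

/-!
# The number of the solutions of `a x ^ 2 - b y ^ 2 = e m`, `m` squarefree
-/

set_option autoImplicit false

namespace Pool.Agent.H49TW

/-- the box of a positive integer -/
def bx (J x : ℕ) : ℕ × ℕ := (Nat.log 2 x, (x - 2 ^ Nat.log 2 x) * J / 2 ^ Nat.log 2 x)

theorem bx_mem {J x B : ℕ} (hJ : 0 < J) (hx : 0 < x) (hB : x ≤ B) :
    bx J x ∈ Finset.range (Nat.log 2 B + 1) ×ˢ Finset.range J := by
  unfold bx
  rw [Finset.mem_product, Finset.mem_range, Finset.mem_range]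
  have h0 : Nat.log 2 x ≤ Nat.log 2 B := Nat.log_mono_right hB
  refine ⟨Nat.lt_succ_of_le h0, ?_⟩
  have h1 : 2 ^ Nat.log 2 x ≤ x := Nat.pow_log_le_self 2 hx.ne'
  have h2 : x < 2 ^ (Nat.log 2 x + 1) := Nat.lt_pow_succ_log_self (by norm_num) x
  rw [Nat.div_lt_iff_lt_mul (by positivity), mul_comm J]
  apply Nat.mul_lt_mul_of_pos_right _ hJ
  rw [pow_succ] at h2
  omega

theorem bx_close {J x x' : ℕ} (hx : 0 < x) (hx' : 0 < x') (h : bx J x = bx J x') :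
    (J : ℤ) * |(x' : ℤ) - x| ≤ x ∧ (J : ℤ) * |(x' : ℤ) - x| ≤ x' := by
  unfold bx at h
  rw [Prod.mk.injEq] at h
  obtain ⟨h1, h2⟩ := h
  rw [← h1] at h2
  obtain ⟨T, hT⟩ : ∃ T, T = 2 ^ Nat.log 2 x := ⟨_, rfl⟩
  have hTp : 0 < T := by rw [hT]; positivity
  have l1 : T ≤ x := by rw [hT]; exact Nat.pow_log_le_self 2 hx.ne'
  have l2 : T ≤ x' := by rw [hT, h1]; exact Nat.pow_log_le_self 2 hx'.ne'
  rw [← hT] at h2
  obtain ⟨u, hu⟩ : ∃ u, x = T + u := ⟨x - T, by omega⟩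
  obtain ⟨v, hv⟩ : ∃ v, x' = T + v := ⟨x' - T, by omega⟩
  have e1 : x - T = u := by omega
  have e2 : x' - T = v := by omega
  rw [e1, e2] at h2
  have hq : (u * J : ℤ) - v * J < T ∧ (v * J : ℤ) - u * J < T := by
    have d1 := Nat.div_add_mod (u * J) T
    have d2 := Nat.div_add_mod (v * J) T
    have m1 := Nat.mod_lt (u * J) hTp
    have m2 := Nat.mod_lt (v * J) hTp
    rw [h2] at d1
    have k1 : ((u * J : ℕ) : ℤ) = T * ((v * J / T : ℕ) : ℤ) + ((u * J % T : ℕ) : ℤ) := by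
      exact_mod_cast d1.symm
    have k2 : ((v * J : ℕ) : ℤ) = T * ((v * J / T : ℕ) : ℤ) + ((v * J % T : ℕ) : ℤ) := by
      exact_mod_cast d2.symm
    push_cast at k1 k2
    have m1' : ((u * J % T : ℕ) : ℤ) < T := by exact_mod_cast m1
    have m2' : ((v * J % T : ℕ) : ℤ) < T := by exact_mod_cast m2
    have n1 : (0 : ℤ) ≤ ((u * J % T : ℕ) : ℤ) := by positivity
    have n2 : (0 : ℤ) ≤ ((v * J % T : ℕ) : ℤ) := by positivity
    push_cast at m1' m2' n1 n2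
    constructor <;> linarith
  have hab : (J : ℤ) * |(x' : ℤ) - x| < T := by
    have e3 : (x' : ℤ) - x = v - u := by rw [hu, hv]; push_cast; ring
    rw [e3]
    rcases abs_cases ((v : ℤ) - u) with ⟨h3, -⟩ | ⟨h3, -⟩
    · rw [h3]; linarith [hq.2]
    · rw [h3]; linarith [hq.1]
  have l1' : (T : ℤ) ≤ x := by exact_mod_cast l1
  have l2' : (T : ℤ) ≤ x' := by exact_mod_cast l2
  exact ⟨by linarith, by linarith⟩

/-- the size of the determinant of two solutions -/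
theorem det_small {a b γ J x y x' y' : ℤ} (ha : a ≠ 0) (hb : b ≠ 0) (hJ : 0 < J) (hx : 0 < x)
    (hy : 0 < y) (hx' : 0 < x') (hy' : 0 < y') (h : a * x ^ 2 - b * y ^ 2 = γ)
    (h' : a * x' ^ 2 - b * y' ^ 2 = γ) (c1 : J * |x' - x| ≤ x) (c2 : J * |x' - x| ≤ x')
    (c3 : J * |y' - y| ≤ y) (c4 : J * |y' - y| ≤ y') : J * |x * y' - x' * y| ≤ |γ| := by
  obtain ⟨V, hV⟩ : ∃ V, V = x * y' - x' * y := ⟨_, rfl⟩
  obtain ⟨W, hW⟩ : ∃ W, W = x * y' + x' * y := ⟨_, rfl⟩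
  have hWp : 0 < W := by rw [hW]; positivity
  have i1 : b * (V * W) = γ * ((x' - x) * (x' + x)) := by
    rw [hV, hW]; linear_combination (x' ^ 2) * h - x ^ 2 * h'
  have i2 : a * (V * W) = γ * ((y' - y) * (y' + y)) := by
    rw [hV, hW]; linear_combination (-(y ^ 2)) * h' + y' ^ 2 * h
  have j1 : |V| * W ≤ |γ| * (|x' - x| * (x' + x)) := by
    have h1 := congrArg abs i1
    rw [abs_mul, abs_mul, abs_mul, abs_mul, abs_of_pos hWp,
      abs_of_pos (show 0 < x' + x by linarith)] at h1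
    rw [← h1]
    have : 1 ≤ |b| := Int.one_le_abs hb
    have h2 : 0 ≤ |V| * W := by positivity
    nlinarith
  have j2 : |V| * W ≤ |γ| * (|y' - y| * (y' + y)) := by
    have h1 := congrArg abs i2
    rw [abs_mul, abs_mul, abs_mul, abs_mul, abs_of_pos hWp,
      abs_of_pos (show 0 < y' + y by linarith)] at h1
    rw [← h1]
    have : 1 ≤ |a| := Int.one_le_abs ha
    have h2 : 0 ≤ |V| * W := by positivity
    nlinarith
  have k1 : J * |V| * W ≤ |γ| * (2 * (x * x')) := by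
    have h1 : J * (|x' - x| * (x' + x)) ≤ 2 * (x * x') := by nlinarith
    calc J * |V| * W = J * (|V| * W) := by ring
      _ ≤ J * (|γ| * (|x' - x| * (x' + x))) := mul_le_mul_of_nonneg_left j1 hJ.le
      _ = |γ| * (J * (|x' - x| * (x' + x))) := by ring
      _ ≤ _ := mul_le_mul_of_nonneg_left h1 (abs_nonneg _)
  have k2 : J * |V| * W ≤ |γ| * (2 * (y * y')) := by
    have h1 : J * (|y' - y| * (y' + y)) ≤ 2 * (y * y') := by nlinarith
    calc J * |V| * W = J * (|V| * W) := by ring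
      _ ≤ J * (|γ| * (|y' - y| * (y' + y))) := mul_le_mul_of_nonneg_left j2 hJ.le
      _ = |γ| * (J * (|y' - y| * (y' + y))) := by ring
      _ ≤ _ := mul_le_mul_of_nonneg_left h1 (abs_nonneg _)
  have h4 : 4 * ((x * x') * (y * y')) ≤ W ^ 2 := by
    rw [hW]
    nlinarith [sq_nonneg (x * y' - x' * y)]
  have h5 : (J * |V| * W) * (J * |V| * W) ≤ (|γ| * W) * (|γ| * W) := by
    calc (J * |V| * W) * (J * |V| * W) ≤ (|γ| * (2 * (x * x'))) * (|γ| * (2 * (y * y'))) := by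
          apply mul_le_mul k1 k2 (by positivity) (by positivity)
      _ = |γ| ^ 2 * (4 * ((x * x') * (y * y'))) := by ring
      _ ≤ |γ| ^ 2 * W ^ 2 := mul_le_mul_of_nonneg_left h4 (by positivity)
      _ = _ := by ring
  have h6 : J * |V| * W ≤ |γ| * W := by
    apply abs_le_of_sq_le_sq' _ (by positivity) |>.2
    nlinarith
  rw [← hV]
  exact le_of_mul_le_mul_right h6 hWp

theorem dvd_of_primes {n : ℕ} (hn : Squarefree n) {k : ℤ} (h : ∀ p : ℕ, p.Prime → p ∣ n → (p : ℤ) ∣ k) :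
    (n : ℤ) ∣ k := by
  rw [Int.natCast_dvd]
  rw [← Nat.prod_primeFactors_of_squarefree hn]
  apply Finset.prod_primes_dvd
  · intro p hp
    exact (Nat.prime_of_mem_primeFactors hp).prime
  · intro p hp
    exact Int.natCast_dvd.1 (h p (Nat.prime_of_mem_primeFactors hp) (Nat.dvd_of_mem_primeFactors hp))

/-- two solutions in the same class -/
theorem det_dvd {M M' : ℕ} {a b x y x' y' x0 y0 : ℤ} (hM : Squarefree M) (hMM : M' ∣ M)
    (hMa : M.Coprime a.natAbs) (hMy : M'.Coprime y0.natAbs) (h0 : (M : ℤ) ∣ a * x0 ^ 2 - b * y0 ^ 2)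
    (h : (M : ℤ) ∣ a * x ^ 2 - b * y ^ 2) (h' : (M : ℤ) ∣ a * x' ^ 2 - b * y' ^ 2)
    (hg : Nat.gcd M' (x * y0 - x0 * y).natAbs = Nat.gcd M' (x' * y0 - x0 * y').natAbs) :
    (M' : ℤ) ∣ x * y' - x' * y := by
  apply dvd_of_primes (hM.squarefree_of_dvd hMM)
  intro p hp hpM
  have hpM1 : p ∣ M := hpM.trans hMM
  have hpp : Prime (p : ℤ) := Nat.prime_iff_prime_int.1 hp
  have hpy : ¬ (p : ℤ) ∣ y0 := by
    intro h1
    have h2 : p ∣ y0.natAbs := Int.natCast_dvd.1 h1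
    have h3 : p ∣ Nat.gcd M' y0.natAbs := Nat.dvd_gcd hpM h2
    rw [hMy] at h3
    exact hp.one_lt.ne' (Nat.dvd_one.1 h3)
  have hpa : ¬ (p : ℤ) ∣ a := by
    intro h1
    have h2 : p ∣ a.natAbs := Int.natCast_dvd.1 h1
    have h3 : p ∣ Nat.gcd M a.natAbs := Nat.dvd_gcd hpM1 h2
    rw [hMa] at h3
    exact hp.one_lt.ne' (Nat.dvd_one.1 h3)
  have hpM2 : (p : ℤ) ∣ (M : ℤ) := Int.natCast_dvd_natCast.2 hpM1
  have key : ∀ x y : ℤ, (M : ℤ) ∣ a * x ^ 2 - b * y ^ 2 →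
      (p : ℤ) ∣ x * y0 - x0 * y ∨ (p : ℤ) ∣ x * y0 + x0 * y := by
    intro x y h1
    have h2 : (p : ℤ) ∣ a * ((x * y0 - x0 * y) * (x * y0 + x0 * y)) := by
      have e : a * ((x * y0 - x0 * y) * (x * y0 + x0 * y)) =
          (a * x ^ 2 - b * y ^ 2) * y0 ^ 2 - (a * x0 ^ 2 - b * y0 ^ 2) * y ^ 2 := by ring
      rw [e]
      exact dvd_sub ((hpM2.trans h1).mul_right _) ((hpM2.trans h0).mul_right _)
    rcases hpp.dvd_or_dvd h2 with h3 | h3
    · exact absurd h3 hpa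
    · exact hpp.dvd_or_dvd h3
  have hiff : (p : ℤ) ∣ x * y0 - x0 * y ↔ (p : ℤ) ∣ x' * y0 - x0 * y' := by
    rw [Int.natCast_dvd, Int.natCast_dvd]
    constructor
    · intro h1
      have h2 : p ∣ Nat.gcd M' (x * y0 - x0 * y).natAbs := Nat.dvd_gcd hpM h1
      rw [hg] at h2
      exact h2.trans (Nat.gcd_dvd_right _ _)
    · intro h1
      have h2 : p ∣ Nat.gcd M' (x' * y0 - x0 * y').natAbs := Nat.dvd_gcd hpM h1
      rw [← hg] at h2
      exact h2.trans (Nat.gcd_dvd_right _ _)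
  have h3 : (p : ℤ) ∣ y0 * (x * y' - x' * y) := by
    by_cases h4 : (p : ℤ) ∣ x * y0 - x0 * y
    · have h5 := hiff.1 h4
      have e : y0 * (x * y' - x' * y) = (x * y0 - x0 * y) * y' - (x' * y0 - x0 * y') * y := by ring
      rw [e]
      exact dvd_sub (h4.mul_right _) (h5.mul_right _)
    · have h5 : ¬ (p : ℤ) ∣ x' * y0 - x0 * y' := fun h6 => h4 (hiff.2 h6)
      have h6 := (key x y h).resolve_left h4
      have h7 := (key x' y' h').resolve_left h5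
      have e : y0 * (x * y' - x' * y) = (x * y0 + x0 * y) * y' - (x' * y0 + x0 * y') * y := by ring
      rw [e]
      exact dvd_sub (h6.mul_right _) (h7.mul_right _)
  exact (hpp.dvd_or_dvd h3).resolve_left hpy

/-- the common divisor of `m` and `y0` divides `e` -/
theorem gcd_dvd_e {a b e m x0 y0 : ℤ} (hm : Squarefree m) (hma : m.natAbs.Coprime a.natAbs)
    (h0 : a * x0 ^ 2 - b * y0 ^ 2 = e * m) : (Nat.gcd m.natAbs y0.natAbs) ∣ e.natAbs := by
  have hM : Squarefree m.natAbs := Int.squarefree_natAbs.2 hm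
  have h1 : ((Nat.gcd m.natAbs y0.natAbs : ℕ) : ℤ) ∣ e := by
    apply dvd_of_primes (hM.squarefree_of_dvd (Nat.gcd_dvd_left _ _))
    intro p hp hpg
    have hpp : Prime (p : ℤ) := Nat.prime_iff_prime_int.1 hp
    have hpm : (p : ℤ) ∣ m := Int.natCast_dvd.2 (hpg.trans (Nat.gcd_dvd_left _ _))
    have hpy : (p : ℤ) ∣ y0 := Int.natCast_dvd.2 (hpg.trans (Nat.gcd_dvd_right _ _))
    have hpa : ¬ (p : ℤ) ∣ a := by
      intro h1
      have h2 : p ∣ a.natAbs := Int.natCast_dvd.1 h1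
      have h3 : p ∣ Nat.gcd m.natAbs a.natAbs := Nat.dvd_gcd (Int.natCast_dvd.1 hpm) h2
      rw [hma] at h3
      exact hp.one_lt.ne' (Nat.dvd_one.1 h3)
    have h2 : (p : ℤ) ∣ a * x0 ^ 2 := by
      have e1 : a * x0 ^ 2 = e * m + b * y0 ^ 2 := by linarith
      rw [e1]
      exact dvd_add (hpm.mul_left _) ((hpy.pow (by norm_num)).mul_left _)
    have h3 : (p : ℤ) ∣ x0 := hpp.dvd_of_dvd_pow ((hpp.dvd_or_dvd h2).resolve_left hpa)
    obtain ⟨u, hu⟩ := h3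
    obtain ⟨v, hv⟩ := hpy
    obtain ⟨n, hn⟩ := hpm
    have hp0 : (p : ℤ) ≠ 0 := by exact_mod_cast hp.ne_zero
    have h4 : (p : ℤ) ∣ e * n := by
      refine ⟨a * u ^ 2 - b * v ^ 2, ?_⟩
      apply mul_left_cancel₀ hp0
      rw [hu, hv, hn] at h0
      linear_combination -h0
    rcases hpp.dvd_or_dvd h4 with h5 | h5
    · exact h5
    · exfalso
      obtain ⟨k, hk⟩ := h5
      have h6 : (p : ℤ) * p ∣ m := ⟨k, by rw [hn, hk]; ring⟩
      exact hpp.not_isUnit (hm _ h6)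
  exact Int.natCast_dvd.1 h1

open Classical in
/-- the number of the solutions -/
theorem card_sol {a b e m : ℤ} {E B : ℕ} (ha : a ≠ 0) (hb : b ≠ 0) (he : e ≠ 0)
    (hE : e.natAbs ≤ E) (hm : Squarefree m) (hma : m.natAbs.Coprime a.natAbs)
    (S : Finset (ℕ × ℕ)) (hS : ∀ s ∈ S, 0 < s.1 ∧ s.1 ≤ B ∧ 0 < s.2 ∧ s.2 ≤ B ∧
      a * s.1 ^ 2 - b * s.2 ^ 2 = e * m) :
    S.card ≤ m.natAbs.divisors.card * ((Nat.log 2 B + 1) * (E ^ 2 + 1)) ^ 2 := by
  rcases S.eq_empty_or_nonempty with h0 | ⟨s0, hs0⟩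
  · rw [h0]; simp
  obtain ⟨q1, q2, q3, q4, q5⟩ := hS s0 hs0
  have hM : Squarefree m.natAbs := Int.squarefree_natAbs.2 hm
  have hm0 : m.natAbs ≠ 0 := hM.ne_zero
  obtain ⟨G, hG⟩ : ∃ G, G = Nat.gcd m.natAbs s0.2 := ⟨_, rfl⟩
  have hGe : G ∣ e.natAbs := by
    have := gcd_dvd_e hm hma q5
    rw [Int.natAbs_natCast] at this
    rw [hG]; exact this
  obtain ⟨M', hM'⟩ : G ∣ m.natAbs := hG ▸ Nat.gcd_dvd_left _ _
  have hGM : G.Coprime M' := Nat.coprime_of_squarefree_mul (hM' ▸ hM)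
  have hM'M : M' ∣ m.natAbs := ⟨G, by rw [hM', mul_comm]⟩
  have hM'0 : 0 < M' := Nat.pos_of_ne_zero (fun h => hm0 (by rw [hM', h, mul_zero]))
  have hM'y : M'.Coprime s0.2 := by
    have h1 : Nat.gcd M' s0.2 ∣ G := by
      rw [hG]; exact Nat.dvd_gcd ((Nat.gcd_dvd_left _ _).trans hM'M) (Nat.gcd_dvd_right _ _)
    have h2 : Nat.gcd M' s0.2 ∣ Nat.gcd G M' := Nat.dvd_gcd h1 (Nat.gcd_dvd_left _ _)
    rw [hGM] at h2
    exact Nat.dvd_one.1 h2
  obtain ⟨J, hJ⟩ : ∃ J, J = E ^ 2 + 1 := ⟨_, rfl⟩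
  have hJ0 : 0 < J := by omega
  have hcard : (m.natAbs.divisors ×ˢ ((Finset.range (Nat.log 2 B + 1) ×ˢ Finset.range J) ×ˢ
      (Finset.range (Nat.log 2 B + 1) ×ˢ Finset.range J))).card =
      m.natAbs.divisors.card * ((Nat.log 2 B + 1) * (E ^ 2 + 1)) ^ 2 := by
    rw [Finset.card_product, Finset.card_product, Finset.card_product, Finset.card_range,
      Finset.card_range, hJ]
    ring
  rw [← hcard]
  apply Finset.card_le_card_of_injOn (fun s : ℕ × ℕ =>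
    (Nat.gcd M' ((s.1 : ℤ) * s0.2 - s0.1 * s.2).natAbs, (bx J s.1, bx J s.2)))
  · intro s hs
    obtain ⟨r1, r2, r3, r4, -⟩ := hS s hs
    rw [Finset.mem_coe, Finset.mem_product, Finset.mem_product]
    refine ⟨?_, bx_mem hJ0 r1 r2, bx_mem hJ0 r3 r4⟩
    rw [Nat.mem_divisors]
    exact ⟨(Nat.gcd_dvd_left _ _).trans hM'M, hm0⟩
  · intro s hs s' hs' hss
    obtain ⟨r1, -, r3, -, r5⟩ := hS s hs
    obtain ⟨r1', -, r3', -, r5'⟩ := hS s' hs'
    simp only [Prod.mk.injEq] at hss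
    obtain ⟨g1, g2, g3⟩ := hss
    obtain ⟨c1, c2⟩ := bx_close r1 r1' g2
    obtain ⟨c3, c4⟩ := bx_close r3 r3' g3
    have p1 : (0 : ℤ) < s.1 := by exact_mod_cast r1
    have p2 : (0 : ℤ) < s.2 := by exact_mod_cast r3
    have p1' : (0 : ℤ) < s'.1 := by exact_mod_cast r1'
    have p2' : (0 : ℤ) < s'.2 := by exact_mod_cast r3'
    have hJ0' : (0 : ℤ) < J := by exact_mod_cast hJ0
    have h1 := det_small ha hb hJ0' p1 p2 p1' p2' r5 r5' c1 c2 c3 c4
    have hdm : ∀ k : ℤ, k = e * m → ((m.natAbs : ℕ) : ℤ) ∣ k := by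
      intro k hk
      rw [hk, Int.natCast_natAbs, abs_dvd]
      exact dvd_mul_left _ _
    have h2 : (M' : ℤ) ∣ (s.1 : ℤ) * s'.2 - s'.1 * s.2 :=
      det_dvd (y0 := (s0.2 : ℤ)) (x0 := (s0.1 : ℤ)) hM hM'M hma
        (by rw [Int.natAbs_natCast]; exact hM'y)
        (hdm _ q5) (hdm _ r5) (hdm _ r5') g1
    have h3 : (s.1 : ℤ) * s'.2 - s'.1 * s.2 = 0 := by
      by_contra hne
      have h4 := Int.le_of_dvd (abs_pos.2 hne) ((dvd_abs _ _).2 h2)
      have h5 : |e * m| ≤ (E : ℤ) ^ 2 * M' := by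
        rw [abs_mul]
        have i1 : |e| ≤ E := by rw [Int.abs_eq_natAbs]; exact_mod_cast hE
        have i2 : |m| = G * M' := by rw [Int.abs_eq_natAbs]; exact_mod_cast hM'
        have i3 : (G : ℤ) ≤ E := by
          exact_mod_cast (Nat.le_of_dvd (Int.natAbs_pos.2 he) hGe).trans hE
        rw [i2]
        have i4 : (0 : ℤ) ≤ M' := by positivity
        have i5 : (0 : ℤ) ≤ G := by positivity
        have i6 := abs_nonneg e
        calc |e| * (G * M') ≤ E * (E * M') := by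
              apply mul_le_mul i1 (mul_le_mul_of_nonneg_right i3 i4) (by positivity) (by positivity)
          _ = _ := by ring
      have h6 : (J : ℤ) * M' ≤ (E : ℤ) ^ 2 * M' :=
        (mul_le_mul_of_nonneg_left h4 hJ0'.le).trans (h1.trans h5)
      have h7 : (J : ℤ) ≤ (E : ℤ) ^ 2 := le_of_mul_le_mul_right h6 (by exact_mod_cast hM'0)
      rw [hJ] at h7
      push_cast at h7
      linarith
    have hγ : e * m ≠ 0 := mul_ne_zero he hm.ne_zero
    have h4 : (s'.1 : ℤ) ^ 2 = (s.1 : ℤ) ^ 2 := by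
      have i1 : e * m * ((s'.1 : ℤ) ^ 2 - (s.1 : ℤ) ^ 2) = 0 := by
        linear_combination (b * (s.1 * s'.2 + s'.1 * s.2)) * h3 + (s.1 : ℤ) ^ 2 * r5' -
          (s'.1 : ℤ) ^ 2 * r5
      have := (mul_eq_zero.1 i1).resolve_left hγ
      linarith
    have h5 : (s'.2 : ℤ) ^ 2 = (s.2 : ℤ) ^ 2 := by
      have i1 : e * m * ((s'.2 : ℤ) ^ 2 - (s.2 : ℤ) ^ 2) = 0 := by
        linear_combination (a * (s.1 * s'.2 + s'.1 * s.2)) * h3 + (s.2 : ℤ) ^ 2 * r5' -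
          (s'.2 : ℤ) ^ 2 * r5
      have := (mul_eq_zero.1 i1).resolve_left hγ
      linarith
    have h6 : s'.1 = s.1 := by
      have := (sq_eq_sq₀ p1'.le p1.le).1 h4
      exact_mod_cast this
    have h7 : s'.2 = s.2 := by
      have := (sq_eq_sq₀ p2'.le p2.le).1 h5
      exact_mod_cast this
    exact Prod.ext h6.symm h7.symm

end Pool.Agent.H49TW
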