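import Pool.Agent.H49TW.Fac

/-!
# Points on the conics `a₁ x₁² + e₁ m = a₂ x₂² + e₂ m = a₃ x₃² + e₃ m`, `m` squarefree and variable
-/

set_option autoImplicit false

namespace Pool.Agent.H49TW

/-- `(x₁, x₂, x₃)` is a point which belongs to `m` -/
def Pnt (a₁ a₂ a₃ e₁ e₂ e₃ m x₁ x₂ x₃ : ℤ) : Prop :=
  0 < x₁ ∧ 0 < x₂ ∧ 0 < x₃ ∧ a₁ * x₁ ^ 2 - a₂ * x₂ ^ 2 = (e₂ - e₁) * m ∧
    a₁ * x₁ ^ 2 - a₃ * x₃ ^ 2 = (e₃ - e₁) * m

variable {a₁ a₂ a₃ e₁ e₂ e₃ m m' x₁ x₂ x₃ y₁ y₂ y₃ : ℤ}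

theorem Pnt.quad (h : Pnt a₁ a₂ a₃ e₁ e₂ e₃ m x₁ x₂ x₃) :
    a₁ * (e₂ - e₃) * x₁ ^ 2 + a₂ * (e₃ - e₁) * x₂ ^ 2 + a₃ * (e₁ - e₂) * x₃ ^ 2 = 0 := by
  obtain ⟨-, -, -, h1, h2⟩ := h
  linear_combination (-(e₃ - e₁)) * h1 + (e₂ - e₁) * h2

theorem Pnt.swap (h : Pnt a₁ a₂ a₃ e₁ e₂ e₃ m x₁ x₂ x₃) :
    Pnt a₁ a₃ a₂ e₁ e₃ e₂ m x₁ x₃ x₂ := by
  obtain ⟨p1, p2, p3, h1, h2⟩ := h
  exact ⟨p1, p3, p2, h2, h1⟩

theorem eq_of_prop (hm : Squarefree m) (hm' : Squarefree m') (hx : 0 < x₁) (hy : 0 < y₁)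
    (h : m * y₁ ^ 2 = m' * x₁ ^ 2) : m = m' := by
  have h1 : m.natAbs * y₁.natAbs ^ 2 = m'.natAbs * x₁.natAbs ^ 2 := by
    rw [← Int.natAbs_pow, ← Int.natAbs_pow, ← Int.natAbs_mul, ← Int.natAbs_mul, h]
  have h2 : m.natAbs = m'.natAbs := sqf_unique (Int.squarefree_natAbs.2 hm)
    (Int.squarefree_natAbs.2 hm') (by omega) (by omega) h1
  rcases Int.natAbs_eq_natAbs_iff.1 h2 with h3 | h3
  · exact h3
  · exfalso
    rw [h3] at h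
    have h4 : m' * (x₁ ^ 2 + y₁ ^ 2) = 0 := by linear_combination -h
    rcases mul_eq_zero.1 h4 with h5 | h5
    · exact hm'.ne_zero h5
    · have : 0 < x₁ ^ 2 + y₁ ^ 2 := by positivity
      omega

/-- two points of different `m` are not conjugate -/
theorem bil_ne (ha2 : a₂ ≠ 0) (ha1 : a₁ ≠ 0) (h12 : e₁ ≠ e₂)
    (h13 : e₁ ≠ e₃) (h23 : e₂ ≠ e₃) (hm : Squarefree m) (hm' : Squarefree m') (hne : m ≠ m')
    (h : Pnt a₁ a₂ a₃ e₁ e₂ e₃ m x₁ x₂ x₃) (h' : Pnt a₁ a₂ a₃ e₁ e₂ e₃ m' y₁ y₂ y₃) :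
    a₁ * (e₂ - e₃) * (x₁ * y₁) + a₂ * (e₃ - e₁) * (x₂ * y₂) + a₃ * (e₁ - e₂) * (x₃ * y₃) ≠ 0 := by
  intro h0
  have q := h.quad
  have q' := h'.quad
  have h1 : (a₁ * (e₂ - e₃)) * (a₂ * (e₃ - e₁)) * (x₁ * y₂ - x₂ * y₁) ^ 2 = 0 := by
    linear_combination (a₁ * (e₂ - e₃) * y₁ ^ 2 + a₂ * (e₃ - e₁) * y₂ ^ 2) * q -
      (a₃ * (e₁ - e₂) * x₃ ^ 2) * q' -
      (a₁ * (e₂ - e₃) * (x₁ * y₁) + a₂ * (e₃ - e₁) * (x₂ * y₂) - a₃ * (e₁ - e₂) * (x₃ * y₃)) * h0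
  have hA1 : a₁ * (e₂ - e₃) ≠ 0 := mul_ne_zero ha1 (sub_ne_zero.2 h23)
  have hA2 : a₂ * (e₃ - e₁) ≠ 0 := mul_ne_zero ha2 (sub_ne_zero.2 h13.symm)
  have h2 : x₁ * y₂ - x₂ * y₁ = 0 := by
    rcases mul_eq_zero.1 h1 with h3 | h3
    · exact absurd h3 (mul_ne_zero hA1 hA2)
    · exact pow_eq_zero_iff (two_ne_zero) |>.1 h3
  obtain ⟨p1, p2, p3, i1, i2⟩ := h
  obtain ⟨p1', p2', p3', i1', i2'⟩ := h'
  have h3 : (e₂ - e₁) * (m * y₁ ^ 2 - m' * x₁ ^ 2) = 0 := by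
    linear_combination (-(y₁ ^ 2)) * i1 + x₁ ^ 2 * i1' + a₂ * (x₁ * y₂ + x₂ * y₁) * h2
  have h4 : m * y₁ ^ 2 = m' * x₁ ^ 2 := by
    have := (mul_eq_zero.1 h3).resolve_left (sub_ne_zero.2 h12.symm)
    linarith
  exact hne (eq_of_prop hm hm' p1 p1' h4)

/-- separation of the points -/
theorem sep (ha1 : a₁ ≠ 0) (ha2 : a₂ ≠ 0) (ha3 : a₃ ≠ 0) (h12 : e₁ ≠ e₂)
    (h13 : e₁ ≠ e₃) (h23 : e₂ ≠ e₃) (hm : Squarefree m) (hm' : Squarefree m') (hne : m ≠ m')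
    (h : Pnt a₁ a₂ a₃ e₁ e₂ e₃ m x₁ x₂ x₃) (h' : Pnt a₁ a₂ a₃ e₁ e₂ e₃ m' y₁ y₂ y₃)
    (hc : |a₂ * (e₃ - e₁)| * x₂ ≤ |a₃ * (e₁ - e₂)| * x₃)
    (hc' : |a₂ * (e₃ - e₁)| * y₂ ≤ |a₃ * (e₁ - e₂)| * y₃) :
    2 * (x₁ * y₁) ≤ (|a₂ * (e₃ - e₁)| + |a₃ * (e₁ - e₂)|) * (x₂ * y₁ - y₂ * x₁) ^ 2 := by
  have hb := bil_ne ha2 ha1 h12 h13 h23 hm hm' hne h h'
  have q := h.quad
  have q' := h'.quad
  obtain ⟨p1, p2, p3, i1, i2⟩ := h
  obtain ⟨p1', p2', p3', i1', i2'⟩ := h'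
  have hA3 : a₃ * (e₁ - e₂) ≠ 0 := mul_ne_zero ha3 (sub_ne_zero.2 h12)
  obtain ⟨A, hA⟩ : ∃ A, A = a₁ * (e₂ - e₃) := ⟨_, rfl⟩
  obtain ⟨P, hP⟩ : ∃ P, P = a₂ * (e₃ - e₁) := ⟨_, rfl⟩
  obtain ⟨Q, hQ⟩ : ∃ Q, Q = a₃ * (e₁ - e₂) := ⟨_, rfl⟩
  rw [← hP, ← hQ] at hc hc' ⊢
  rw [← hA, ← hP, ← hQ] at hb q q'
  rw [← hQ] at hA3
  obtain ⟨V, hV⟩ : ∃ V, V = x₂ * y₁ - y₂ * x₁ := ⟨_, rfl⟩
  obtain ⟨U, hU⟩ : ∃ U, U = x₃ * y₁ - y₃ * x₁ := ⟨_, rfl⟩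
  obtain ⟨W, hW⟩ : ∃ W, W = x₂ * y₁ + y₂ * x₁ := ⟨_, rfl⟩
  obtain ⟨Z, hZ⟩ : ∃ Z, Z = x₃ * y₁ + y₃ * x₁ := ⟨_, rfl⟩
  have hWp : 0 < W := by rw [hW]; positivity
  have hZp : 0 < Z := by rw [hZ]; positivity
  have e1 : P * (V * W) + Q * (U * Z) = 0 := by
    rw [hV, hU, hW, hZ]; linear_combination y₁ ^ 2 * q - x₁ ^ 2 * q'
  have hPW : |P| * W ≤ |Q| * Z := by
    rw [hW, hZ]
    nlinarith
  have hUV : |U| ≤ |V| := by
    have e2 : |P| * (|V| * W) = |Q| * (|U| * Z) := by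
      have : P * (V * W) = -(Q * (U * Z)) := by linarith
      have h1 := congrArg abs this
      rw [abs_neg, abs_mul, abs_mul, abs_mul, abs_mul, abs_of_pos hWp, abs_of_pos hZp] at h1
      exact h1
    by_contra hlt
    push Not at hlt
    have hQp : 0 < |Q| := abs_pos.2 hA3
    have h1 : |Q| * (|V| * Z) < |Q| * (|U| * Z) :=
      mul_lt_mul_of_pos_left (mul_lt_mul_of_pos_right hlt hZp) hQp
    have h2 : |P| * (|V| * W) ≤ |Q| * (|V| * Z) := by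
      calc |P| * (|V| * W) = |V| * (|P| * W) := by ring
        _ ≤ |V| * (|Q| * Z) := mul_le_mul_of_nonneg_left hPW (abs_nonneg _)
        _ = _ := by ring
    linarith
  obtain ⟨b, hb'⟩ : ∃ b, b = A * (x₁ * y₁) + P * (x₂ * y₂) + Q * (x₃ * y₃) := ⟨_, rfl⟩
  rw [← hb'] at hb
  have e3 : 2 * b * (x₁ * y₁) = -(P * V ^ 2 + Q * U ^ 2) := by
    rw [hb', hV, hU]
    linear_combination y₁ ^ 2 * q + x₁ ^ 2 * q'
  have h1 : 2 * (x₁ * y₁) ≤ |2 * b * (x₁ * y₁)| := by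
    rw [abs_mul, abs_mul, abs_of_pos (mul_pos p1 p1'), abs_two]
    have : 1 ≤ |b| := Int.one_le_abs hb
    have hp : 0 < x₁ * y₁ := mul_pos p1 p1'
    nlinarith
  have h2 : |2 * b * (x₁ * y₁)| ≤ |P| * V ^ 2 + |Q| * U ^ 2 := by
    rw [e3, abs_neg]
    refine (abs_add_le _ _).trans ?_
    rw [abs_mul, abs_mul, abs_of_nonneg (sq_nonneg V), abs_of_nonneg (sq_nonneg U)]
  have h3 : U ^ 2 ≤ V ^ 2 := sq_le_sq.2 hUV
  have h4 : |Q| * U ^ 2 ≤ |Q| * V ^ 2 := mul_le_mul_of_nonneg_left h3 (abs_nonneg _)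
  rw [← hV]
  linarith

/-- a finite set of natural numbers with small differences -/
theorem card_le_of_diff (S : Finset ℕ) (l : ℕ) (h : ∀ a ∈ S, ∀ b ∈ S, a ≤ b + l) : S.card ≤ l + 1 := by
  rcases S.eq_empty_or_nonempty with h0 | h0
  · rw [h0]; simp
  · have h1 : S ⊆ Finset.Icc (S.min' h0) (S.min' h0 + l) := by
      intro a ha
      rw [Finset.mem_Icc]
      exact ⟨S.min'_le a ha, h a ha _ (S.min'_mem h0)⟩
    have h2 := Finset.card_le_card h1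
    rw [Nat.card_Icc] at h2
    omega

/-- two points in a small cell -/
theorem cell {r T X X' Y Y' q A : ℤ} (hr : 0 < r) (hT : 0 < T) (hX : 0 < X) (hX' : 0 < X') (hXu : X < 2 * T)
    (hXu' : X' < 2 * T) (hA : A ≤ r ^ 2) (h1 : 2 * (X * X') ≤ A * (Y * X' - Y' * X) ^ 2)
    (u1 : q * X ≤ 2 * r * T * Y) (u2 : 2 * r * T * Y < (q + 1) * X)
    (v1 : q * X' ≤ 2 * r * T * Y') (v2 : 2 * r * T * Y' < (q + 1) * X') : False := by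
  obtain ⟨V, hV⟩ : ∃ V, V = Y * X' - Y' * X := ⟨_, rfl⟩
  obtain ⟨Z, hZ⟩ : ∃ Z, Z = X * X' := ⟨_, rfl⟩
  have hZp : 0 < Z := by rw [hZ]; exact mul_pos hX hX'
  have hlo : -Z < 2 * r * T * V := by
    have t1 : 2 * r * T * Y' * X < (q + 1) * X' * X := mul_lt_mul_of_pos_right v2 hX
    have t2 : q * X * X' ≤ 2 * r * T * Y * X' := mul_le_mul_of_nonneg_right u1 hX'.le
    rw [hZ, hV]; linarith
  have hhi : 2 * r * T * V < Z := by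
    have t1 : 2 * r * T * Y * X' < (q + 1) * X * X' := mul_lt_mul_of_pos_right u2 hX'
    have t2 : q * X' * X ≤ 2 * r * T * Y' * X := mul_le_mul_of_nonneg_right v1 hX.le
    rw [hZ, hV]; linarith
  have h3 : (2 * r * T * V) ^ 2 < Z ^ 2 := sq_lt_sq' hlo hhi
  rw [← hZ, ← hV] at h1
  have h4 : Z ≤ (2 * T) * (2 * T) := by
    rw [hZ]; exact mul_le_mul hXu.le hXu'.le hX'.le (by linarith)
  have h5 : 2 * Z ≤ r ^ 2 * V ^ 2 := h1.trans (mul_le_mul_of_nonneg_right hA (sq_nonneg _))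
  have h6 : (2 * T) * (2 * T) * (2 * Z) ≤ (2 * T) * (2 * T) * (r ^ 2 * V ^ 2) :=
    mul_le_mul_of_nonneg_left h5 (by positivity)
  have h7 : (2 * T) * (2 * T) * (r ^ 2 * V ^ 2) = (2 * r * T * V) ^ 2 := by ring
  have h8 : Z * Z ≤ (2 * T) * (2 * T) * Z := mul_le_mul_of_nonneg_right h4 hZp.le
  have h9 : 0 < Z * Z := mul_pos hZp hZp
  have h10 : (2 * T) * (2 * T) * (2 * Z) = 2 * ((2 * T) * (2 * T) * Z) := by ring
  have h11 : Z ^ 2 = Z * Z := by ring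
  linarith

/-- two points in a large box -/
theorem large {r T K X X' Y Y' q q' N E e m n a b s : ℤ} (hr : 0 < r) (hT : 0 < T) (hK : 0 < K) (hs : 0 ≤ s)
    (hX : T ≤ X) (hX' : T ≤ X') (hXu : X < 2 * T) (hXu' : X' < 2 * T) (hY : K ≤ Y) (hY' : K ≤ Y')
    (u1 : q * X ≤ 2 * r * T * Y) (v2 : 2 * r * T * Y' < (q' + 1) * X') (hb : b ≠ 0)
    (i1 : a * X ^ 2 - b * Y ^ 2 = e * m) (i2 : a * X' ^ 2 - b * Y' ^ 2 = e * n)
    (he : |e| ≤ E) (hm : |m| ≤ N) (hn : |n| ≤ N) (hsE : E * N ≤ s ^ 2) (hsK : s ≤ K) :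
    q ≤ q' + 4 * r * s := by
  have hN : 0 ≤ N := (abs_nonneg m).trans hm
  have hE : 0 ≤ E := (abs_nonneg e).trans he
  have hXp : 0 < X := by linarith
  have hXp' : 0 < X' := by linarith
  have hYp : 0 < Y := by linarith
  have hYp' : 0 < Y' := by linarith
  obtain ⟨Z, hZ⟩ : ∃ Z, Z = X * X' := ⟨_, rfl⟩
  obtain ⟨V, hV⟩ : ∃ V, V = Y * X' - Y' * X := ⟨_, rfl⟩
  obtain ⟨W, hW⟩ : ∃ W, W = Y * X' + Y' * X := ⟨_, rfl⟩
  have hZp : 0 < Z := by rw [hZ]; exact mul_pos hXp hXp'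
  have hWp : 0 < W := by rw [hW]; positivity
  have e1 : b * (V * W) = e * (n * X ^ 2 - m * X' ^ 2) := by
    rw [hV, hW]; linear_combination (-(X' ^ 2)) * i1 + X ^ 2 * i2
  have t4 : X ^ 2 ≤ 2 * Z := by
    have : X * X ≤ X * (2 * X') := mul_le_mul_of_nonneg_left (by linarith) hXp.le
    rw [hZ]; linarith
  have t5 : X' ^ 2 ≤ 2 * Z := by
    have : X' * X' ≤ X' * (2 * X) := mul_le_mul_of_nonneg_left (by linarith) hXp'.le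
    rw [hZ]; linarith
  have h4 : |n * X ^ 2 - m * X' ^ 2| ≤ N * (4 * Z) := by
    have t1 : |n * X ^ 2 - m * X' ^ 2| ≤ |n * X ^ 2| + |m * X' ^ 2| := abs_sub _ _
    rw [abs_mul, abs_mul, abs_of_nonneg (sq_nonneg X), abs_of_nonneg (sq_nonneg X')] at t1
    have t2 : |n| * X ^ 2 ≤ N * (2 * Z) := mul_le_mul hn t4 (sq_nonneg _) hN
    have t3 : |m| * X' ^ 2 ≤ N * (2 * Z) := mul_le_mul hm t5 (sq_nonneg _) hN
    linarith
  have h5 : |e| * |n * X ^ 2 - m * X' ^ 2| ≤ E * (N * (4 * Z)) :=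
    mul_le_mul he h4 (abs_nonneg _) hE
  have e2 : |V| * W ≤ E * (N * (4 * Z)) := by
    have h1 := congrArg abs e1
    rw [abs_mul, abs_mul, abs_mul, abs_of_pos hWp] at h1
    have h2 : 1 ≤ |b| := Int.one_le_abs hb
    have h3 : 0 ≤ |V| * W := by positivity
    have h6 : 1 * (|V| * W) ≤ |b| * (|V| * W) := mul_le_mul_of_nonneg_right h2 h3
    linarith
  have e3 : K * (2 * T) ≤ W := by
    have a1 : K * T ≤ Y * X' := mul_le_mul hY hX' hT.le hYp.le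
    have a2 : K * T ≤ Y' * X := mul_le_mul hY' hX hT.le hYp'.le
    rw [hW]; linarith
  have e4 : 2 * r * T * V * K ≤ r * (E * (N * (4 * Z))) := by
    have t1 : 2 * r * T * V * K = r * (V * (K * (2 * T))) := by ring
    have t2 : V * (K * (2 * T)) ≤ |V| * (K * (2 * T)) :=
      mul_le_mul_of_nonneg_right (le_abs_self _) (by positivity)
    have t3 : |V| * (K * (2 * T)) ≤ |V| * W := mul_le_mul_of_nonneg_left e3 (abs_nonneg _)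
    rw [t1]
    exact mul_le_mul_of_nonneg_left (t2.trans (t3.trans e2)) hr.le
  have e5 : (q - q' - 1) * Z < 2 * r * T * V := by
    have t1 : 2 * r * T * Y' * X < (q' + 1) * X' * X := mul_lt_mul_of_pos_right v2 hXp
    have t2 : q * X * X' ≤ 2 * r * T * Y * X' := mul_le_mul_of_nonneg_right u1 hXp'.le
    rw [hZ, hV]; linarith
  have e6 : (q - q' - 1) * K < 4 * r * (E * N) := by
    have t1 : (q - q' - 1) * Z * K < 2 * r * T * V * K := mul_lt_mul_of_pos_right e5 hK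
    have t2 : ((q - q' - 1) * K) * Z < (4 * r * (E * N)) * Z := by
      calc ((q - q' - 1) * K) * Z = (q - q' - 1) * Z * K := by ring
        _ < 2 * r * T * V * K := t1
        _ ≤ r * (E * (N * (4 * Z))) := e4
        _ = _ := by ring
    exact lt_of_mul_lt_mul_right t2 hZp.le
  by_contra hlt
  push Not at hlt
  have h1 : 4 * r * s ≤ q - q' - 1 := by linarith
  have h3 : 4 * r * s * s ≤ (q - q' - 1) * K := by
    apply mul_le_mul h1 hsK hs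
    have : 0 ≤ 4 * r * s := by positivity
    linarith
  have h6 : 4 * r * (E * N) ≤ 4 * r * s ^ 2 := mul_le_mul_of_nonneg_left hsE (by positivity)
  have h7 : 4 * r * s ^ 2 = 4 * r * s * s := by ring
  linarith

/-- the numbers of the points in one box -/
theorem box_card {E r N s k₁ k₂ : ℕ} (ha1 : a₁ ≠ 0) (ha2 : a₂ ≠ 0) (ha3 : a₃ ≠ 0) (h12 : e₁ ≠ e₂)
    (h13 : e₁ ≠ e₃) (h23 : e₂ ≠ e₃) (hE : |e₂ - e₁| ≤ E) (hr : 0 < r)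
    (hA : |a₂ * (e₃ - e₁)| + |a₃ * (e₁ - e₂)| ≤ (r : ℤ) ^ 2) (hs : E * N ≤ s ^ 2)
    (S : Finset ℤ) (x : ℤ → ℕ × ℕ × ℕ)
    (hS : ∀ m ∈ S, Squarefree m ∧ |m| ≤ N ∧
      Pnt a₁ a₂ a₃ e₁ e₂ e₃ m (x m).1 (x m).2.1 (x m).2.2 ∧ Nat.log 2 (x m).1 = k₁ ∧
      Nat.log 2 (x m).2.1 = k₂ ∧
      |a₂ * (e₃ - e₁)| * (x m).2.1 ≤ |a₃ * (e₁ - e₂)| * (x m).2.2) : S.card ≤ 4 * r * s + 1 := by
  classical
  obtain ⟨R, hR⟩ : ∃ R, R = 2 * r * 2 ^ k₁ := ⟨_, rfl⟩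
  have fac : ∀ m ∈ S, 0 < (x m).1 ∧ 2 ^ k₁ ≤ (x m).1 ∧ (x m).1 < 2 * 2 ^ k₁ ∧
      2 ^ k₂ ≤ (x m).2.1 ∧ (x m).2.1 < 2 * 2 ^ k₂ := by
    intro m hm
    obtain ⟨-, -, ⟨p1, p2, -⟩, l1, l2, -⟩ := hS m hm
    have p1' : 0 < (x m).1 := by exact_mod_cast p1
    have p2' : 0 < (x m).2.1 := by exact_mod_cast p2
    refine ⟨p1', ?_, ?_, ?_, ?_⟩
    · rw [← l1]; exact Nat.pow_log_le_self 2 p1'.ne'
    · rw [← l1, ← pow_succ']; exact Nat.lt_pow_succ_log_self (by norm_num) _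
    · rw [← l2]; exact Nat.pow_log_le_self 2 p2'.ne'
    · rw [← l2, ← pow_succ']; exact Nat.lt_pow_succ_log_self (by norm_num) _
  obtain ⟨q, hq⟩ : ∃ q : ℤ → ℕ, q = fun m => R * (x m).2.1 / (x m).1 := ⟨_, rfl⟩
  obtain ⟨T, hT⟩ : ∃ T : ℤ, T = 2 ^ k₁ := ⟨_, rfl⟩
  obtain ⟨K, hK⟩ : ∃ K : ℤ, K = 2 ^ k₂ := ⟨_, rfl⟩
  have hTp : 0 < T := by rw [hT]; positivity
  have hKp : 0 < K := by rw [hK]; positivity
  have hrp : (0 : ℤ) < r := by exact_mod_cast hr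
  have hRT : (R : ℤ) = 2 * r * T := by rw [hR, hT]; push_cast; ring
  have qlo : ∀ m ∈ S, (q m : ℤ) * (x m).1 ≤ 2 * r * T * (x m).2.1 := by
    intro m _
    rw [hq, ← hRT]
    exact_mod_cast Nat.div_mul_le_self (R * (x m).2.1) (x m).1
  have qhi : ∀ m ∈ S, 2 * r * T * (x m).2.1 < (q m + 1) * (x m).1 := by
    intro m hm
    rw [hq, ← hRT]
    have := Nat.lt_mul_div_succ (R * (x m).2.1) (fac m hm).1
    rw [mul_comm (x m).1] at this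
    exact_mod_cast this
  have facz : ∀ m ∈ S, T ≤ (x m).1 ∧ ((x m).1 : ℤ) < 2 * T ∧ K ≤ (x m).2.1 := by
    intro m hm
    obtain ⟨f1, f2, f3, f4, f5⟩ := fac m hm
    rw [hT, hK]
    exact ⟨by exact_mod_cast f2, by exact_mod_cast f3, by exact_mod_cast f4⟩
  -- injectivity
  have inj : Set.InjOn q (S : Set ℤ) := by
    intro m hm n hn hmn
    rw [Finset.mem_coe] at hm hn
    by_contra hne
    obtain ⟨s1, n1, P1, -, -, c1⟩ := hS m hm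
    obtain ⟨s2, n2, P2, -, -, c2⟩ := hS n hn
    have h1 := sep ha1 ha2 ha3 h12 h13 h23 s1 s2 hne P1 P2 c1 c2
    obtain ⟨f1, f2, f3⟩ := facz m hm
    obtain ⟨g1, g2, g3⟩ := facz n hn
    have v1 := qlo n hn
    have v2 := qhi n hn
    rw [← hmn] at v1 v2
    exact cell hrp hTp (hTp.trans_le f1) (hTp.trans_le g1) f2 g2 hA h1 (qlo m hm) (qhi m hm) v1 v2
  rw [← Finset.card_image_of_injOn inj]
  apply card_le_of_diff
  intro a ha b hb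
  rw [Finset.mem_image] at ha hb
  obtain ⟨m, hm, rfl⟩ := ha
  obtain ⟨n, hn, rfl⟩ := hb
  rcases le_or_gt (2 ^ k₂) s with hks | hks
  · -- small box
    obtain ⟨f1, f2, f3, f4, f5⟩ := fac m hm
    have h1 : q m < 4 * r * 2 ^ k₂ := by
      rw [hq]
      show R * (x m).2.1 / (x m).1 < 4 * r * 2 ^ k₂
      rw [Nat.div_lt_iff_lt_mul f1, hR]
      calc 2 * r * 2 ^ k₁ * (x m).2.1 < 2 * r * 2 ^ k₁ * (2 * 2 ^ k₂) := by
            apply Nat.mul_lt_mul_of_pos_left f5 (by positivity)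
        _ = 4 * r * 2 ^ k₂ * 2 ^ k₁ := by ring
        _ ≤ 4 * r * 2 ^ k₂ * (x m).1 := Nat.mul_le_mul_left _ f2
    have h2 : 4 * r * 2 ^ k₂ ≤ 4 * r * s := Nat.mul_le_mul_left _ hks
    omega
  · -- large box
    obtain ⟨s1, n1, P1, -, -, c1⟩ := hS m hm
    obtain ⟨s2, n2, P2, -, -, c2⟩ := hS n hn
    obtain ⟨f1, f2, f3⟩ := facz m hm
    obtain ⟨g1, g2, g3⟩ := facz n hn
    have h2 : (s : ℤ) ≤ K := by rw [hK]; exact_mod_cast hks.le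
    have h3 := large (N := N) (E := E) (s := s) hrp hTp hKp (by positivity) f1 g1 f2 g2 f3 g3
      (qlo m hm) (qhi n hn) ha2 P1.2.2.2.1 P2.2.2.2.1 hE n1 n2 (by exact_mod_cast hs) h2
    exact_mod_cast h3

/-- the number of the `m` -/
theorem count_B {E r N s B : ℕ} (ha1 : a₁ ≠ 0) (ha2 : a₂ ≠ 0) (ha3 : a₃ ≠ 0) (h12 : e₁ ≠ e₂)
    (h13 : e₁ ≠ e₃) (h23 : e₂ ≠ e₃) (hE : |e₂ - e₁| ≤ E) (hE' : |e₃ - e₁| ≤ E) (hr : 0 < r)
    (hA : |a₂ * (e₃ - e₁)| + |a₃ * (e₁ - e₂)| ≤ (r : ℤ) ^ 2) (hs : E * N ≤ s ^ 2)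
    (S : Finset ℤ) (hS : ∀ m ∈ S, Squarefree m ∧ |m| ≤ N ∧ ∃ x : ℕ × ℕ × ℕ,
      Pnt a₁ a₂ a₃ e₁ e₂ e₃ m x.1 x.2.1 x.2.2 ∧ x.1 ≤ B ∧ x.2.1 ≤ B ∧ x.2.2 ≤ B) :
    S.card ≤ (4 * r * s + 1) * (2 * (Nat.log 2 B + 1) ^ 2) := by
  classical
  have hch : ∀ m : ℤ, ∃ x : ℕ × ℕ × ℕ, m ∈ S → (Pnt a₁ a₂ a₃ e₁ e₂ e₃ m x.1 x.2.1 x.2.2 ∧
      x.1 ≤ B ∧ x.2.1 ≤ B ∧ x.2.2 ≤ B) := by
    intro m
    by_cases hm : m ∈ S
    · obtain ⟨-, -, x, hx⟩ := hS m hm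
      exact ⟨x, fun _ => hx⟩
    · exact ⟨(0, 0, 0), fun h => absurd h hm⟩
  choose x hx using hch
  obtain ⟨f, hf⟩ : ∃ f : ℤ → Bool × ℕ × ℕ, f = fun m =>
      if |a₂ * (e₃ - e₁)| * (x m).2.1 ≤ |a₃ * (e₁ - e₂)| * (x m).2.2 then
        (true, Nat.log 2 (x m).1, Nat.log 2 (x m).2.1)
      else (false, Nat.log 2 (x m).1, Nat.log 2 (x m).2.2) := ⟨_, rfl⟩
  have hT : ((Finset.univ : Finset Bool) ×ˢ (Finset.range (Nat.log 2 B + 1) ×ˢ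
      Finset.range (Nat.log 2 B + 1))).card = 2 * (Nat.log 2 B + 1) ^ 2 := by
    rw [Finset.card_product, Finset.card_product, Finset.card_range, Finset.card_univ,
      Fintype.card_bool]
    ring
  rw [← hT]
  apply Finset.card_le_mul_card_image_of_maps_to (f := f)
  · intro m hm
    obtain ⟨-, b1, b2, b3⟩ := hx m hm
    have l1 : Nat.log 2 (x m).1 < Nat.log 2 B + 1 := Nat.lt_succ_of_le (Nat.log_mono_right b1)
    have l2 : Nat.log 2 (x m).2.1 < Nat.log 2 B + 1 := Nat.lt_succ_of_le (Nat.log_mono_right b2)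
    have l3 : Nat.log 2 (x m).2.2 < Nat.log 2 B + 1 := Nat.lt_succ_of_le (Nat.log_mono_right b3)
    rw [hf]
    dsimp only
    split_ifs
    · simp [l1, l2]
    · simp [l1, l3]
  · rintro ⟨c, k₁, k₂⟩ -
    rcases c with _ | _
    · -- the other class
      apply box_card (x := fun m => ((x m).1, (x m).2.2, (x m).2.1)) (k₁ := k₁) (k₂ := k₂) ha1 ha3 ha2
        h13 h12 h23.symm hE' hr _ hs
      · intro m hm
        rw [Finset.mem_filter] at hm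
        obtain ⟨hm1, hm2⟩ := hm
        obtain ⟨q1, q2, -⟩ := hS m hm1
        obtain ⟨P, -⟩ := hx m hm1
        rw [hf] at hm2
        dsimp only at hm2
        split_ifs at hm2 with hif
        · exact absurd (congrArg Prod.fst hm2) (by simp)
        · simp only [Prod.mk.injEq, true_and] at hm2
          refine ⟨q1, q2, P.swap, hm2.1, hm2.2, ?_⟩
          push Not at hif
          dsimp only
          have g1 : |a₃ * (e₂ - e₁)| = |a₃ * (e₁ - e₂)| := by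
            rw [← abs_neg]; congr 1; ring
          have g2 : |a₂ * (e₁ - e₃)| = |a₂ * (e₃ - e₁)| := by
            rw [← abs_neg]; congr 1; ring
          rw [g1, g2]
          exact hif.le
      · have g1 : |a₃ * (e₂ - e₁)| = |a₃ * (e₁ - e₂)| := by
          rw [← abs_neg]; congr 1; ring
        have g2 : |a₂ * (e₁ - e₃)| = |a₂ * (e₃ - e₁)| := by
          rw [← abs_neg]; congr 1; ring
        rw [g1, g2]
        linarith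
    · apply box_card (x := x) (k₁ := k₁) (k₂ := k₂) ha1 ha2 ha3 h12 h13 h23 hE hr hA hs
      intro m hm
      rw [Finset.mem_filter] at hm
      obtain ⟨hm1, hm2⟩ := hm
      obtain ⟨q1, q2, -⟩ := hS m hm1
      obtain ⟨P, -⟩ := hx m hm1
      rw [hf] at hm2
      dsimp only at hm2
      split_ifs at hm2 with hif
      · simp only [Prod.mk.injEq, true_and] at hm2
        exact ⟨q1, q2, P, hm2.1, hm2.2, hif⟩
      · exact absurd (congrArg Prod.fst hm2) (by simp)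

end Pool.Agent.H49TW
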