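import Pool.Agent.H49TW.CntA
import Pool.Agent.H49TW.CntB
import Pool.Agent.H49TW.Sums

/-!
# The two families
-/

set_option autoImplicit false

namespace Pool.Agent.H49TW

open Finset

variable {e₁ e₂ e₃ D x σ₁ σ₂ σ₃ m : ℤ} {c₁ c₂ c₃ d₁ d₂ d₃ x₁ x₂ x₃ : ℕ}

theorem Data.swap23 (h : Data e₁ e₂ e₃ D x σ₁ σ₂ σ₃ c₁ c₂ c₃ d₁ d₂ d₃ m x₁ x₂ x₃) :
    Data e₁ e₃ e₂ D x σ₁ σ₃ σ₂ c₁ c₃ c₂ d₁ d₃ d₂ m x₁ x₃ x₂ where
  s1 := h.s1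
  s2 := h.s3
  s3 := h.s2
  c1 := by have := h.c1; rwa [← dvd_neg, neg_sub] at this
  c2 := h.c3
  c3 := h.c2
  p1 := h.p1
  p2 := h.p3
  p3 := h.p2
  hD := by rw [h.hD]; ring
  sqm := h.sqm
  X1 := by rw [h.X1, mul_comm c₂ c₃]; ring
  X2 := by rw [h.X3]; ring
  X3 := by rw [h.X2]; ring
  q1 := by rw [mul_comm c₃ c₂]; exact h.q1
  q2 := h.q3
  q3 := h.q2
  r1 := by rw [mul_comm c₃ c₂]; exact h.r1
  r2 := h.r3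
  r3 := h.r2

theorem Data.swap13 (h : Data e₁ e₂ e₃ D x σ₁ σ₂ σ₃ c₁ c₂ c₃ d₁ d₂ d₃ m x₁ x₂ x₃) :
    Data e₃ e₂ e₁ D x σ₃ σ₂ σ₁ c₃ c₂ c₁ d₃ d₂ d₁ m x₃ x₂ x₁ where
  s1 := h.s3
  s2 := h.s2
  s3 := h.s1
  c1 := by have := h.c3; rwa [← dvd_neg, neg_sub] at this
  c2 := by have := h.c2; rwa [← dvd_neg, neg_sub] at this
  c3 := by have := h.c1; rwa [← dvd_neg, neg_sub] at this
  p1 := h.p3
  p2 := h.p2
  p3 := h.p1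
  hD := by rw [h.hD]; ring
  sqm := h.sqm
  X1 := by rw [h.X3, mul_comm c₁ c₂]; ring
  X2 := by rw [h.X2, mul_comm c₁ c₃]; ring
  X3 := by rw [h.X1, mul_comm c₂ c₃]; ring
  q1 := by rw [mul_comm c₂ c₁]; exact h.q3
  q2 := by rw [mul_comm c₃ c₁]; exact h.q2
  q3 := by rw [mul_comm c₃ c₂]; exact h.q1
  r1 := by rw [mul_comm c₂ c₁]; exact h.r3
  r2 := by rw [mul_comm c₃ c₁]; exact h.r2
  r3 := by rw [mul_comm c₃ c₂]; exact h.r1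

theorem Data.pos (h : Data e₁ e₂ e₃ D x σ₁ σ₂ σ₃ c₁ c₂ c₃ d₁ d₂ d₃ m x₁ x₂ x₃) :
    0 < c₁ ∧ 0 < c₂ ∧ 0 < c₃ ∧ 0 < d₁ ∧ 0 < d₂ ∧ 0 < d₃ ∧ 0 < m.natAbs := by
  have h1 := h.q1.ne_zero
  have h2 := h.q2.ne_zero
  have h3 := h.q3.ne_zero
  simp only [ne_eq, mul_eq_zero, not_or] at h1 h2 h3
  have h4 := h.sqm.ne_zero
  exact ⟨by omega, by omega, by omega, by omega, by omega, by omega, by omega⟩

theorem Data.pnt (h : Data e₁ e₂ e₃ D x σ₁ σ₂ σ₃ c₁ c₂ c₃ d₁ d₂ d₃ m x₁ x₂ x₃) :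
    Pnt (σ₁ * (c₂ * c₃ * d₁ : ℕ)) (σ₂ * (c₁ * c₃ * d₂ : ℕ)) (σ₃ * (c₁ * c₂ * d₃ : ℕ)) e₁ e₂ e₃ m
      x₁ x₂ x₃ := by
  obtain ⟨-, -, -, p1, p2, p3, -⟩ := h.pos
  have hP : ((d₁ : ℤ) * d₂ * d₃) ≠ 0 := by positivity
  refine ⟨by exact_mod_cast h.p1, by exact_mod_cast h.p2, by exact_mod_cast h.p3, ?_, ?_⟩
  · apply mul_left_cancel₀ hP
    have e1 := h.X1
    have e2 := h.X2
    have e3 := h.hD
    linear_combination e2 - e1 + (e₂ - e₁) * e3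
  · apply mul_left_cancel₀ hP
    have e1 := h.X1
    have e2 := h.X3
    have e3 := h.hD
    linear_combination e2 - e1 + (e₃ - e₁) * e3

theorem Data.absD (h : Data e₁ e₂ e₃ D x σ₁ σ₂ σ₃ c₁ c₂ c₃ d₁ d₂ d₃ m x₁ x₂ x₃) :
    D.natAbs = d₁ * d₂ * d₃ * m.natAbs := by
  rw [h.hD, Int.natAbs_mul]
  congr 1

/-- the sign set -/
def Sg : Finset ℤ := {1, -1}

theorem card_Sg : Sg.card = 2 := by decide

theorem mem_Sg {s : ℤ} : s ∈ Sg ↔ s = 1 ∨ s = -1 := by simp [Sg]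

theorem sg_natAbs {s : ℤ} (h : s = 1 ∨ s = -1) (n : ℕ) : (s * (n : ℤ)).natAbs = n := by
  rcases h with h | h <;> rw [h] <;> simp

theorem nat_of_eq {s s' : ℤ} (h : s = 1 ∨ s = -1) (h' : s' = 1 ∨ s' = -1) {n n' x x' : ℕ}
    (he : s * (n : ℤ) * (x : ℤ) ^ 2 = s' * (n' : ℤ) * (x' : ℤ) ^ 2) : n * x ^ 2 = n' * x' ^ 2 := by
  have h1 := congrArg Int.natAbs he
  have e1 : s * (n : ℤ) * (x : ℤ) ^ 2 = s * ((n * x ^ 2 : ℕ) : ℤ) := by push_cast; ring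
  have e2 : s' * (n' : ℤ) * (x' : ℤ) ^ 2 = s' * ((n' * x' ^ 2 : ℕ) : ℤ) := by push_cast; ring
  rw [e1, e2, sg_natAbs h, sg_natAbs h'] at h1
  exact h1

/-- the family of the `D` with a large `d₃` -/
theorem famA {E N Q B : ℕ} (h12 : e₁ ≠ e₂) (h13 : e₁ ≠ e₃) (h23 : e₂ ≠ e₃)
    (hE3 : (e₂ - e₁).natAbs ≤ E) (hE2 : (e₃ - e₁).natAbs ≤ E) (hE1 : (e₃ - e₂).natAbs ≤ E)
    (F : Finset ℤ) (hF : ∀ D ∈ F, D.natAbs ≤ N ∧ ∃ (x σ₁ σ₂ σ₃ : ℤ) (c₁ c₂ c₃ d₁ d₂ d₃ : ℕ) (m : ℤ)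
      (x₁ x₂ x₃ : ℕ), Data e₁ e₂ e₃ D x σ₁ σ₂ σ₃ c₁ c₂ c₃ d₁ d₂ d₃ m x₁ x₂ x₃ ∧ x₁ ≤ B ∧ x₂ ≤ B ∧
      Q < d₃) :
    (F.card : ℝ) ≤ 8 * E ^ 3 * ((N / (Q + 1) : ℕ) * (1 + Real.log ((N / (Q + 1) : ℕ) : ℝ)) ^ 3) *
      (((Nat.log 2 B + 1) * (E ^ 2 + 1) : ℕ) : ℝ) ^ 2 := by
  classical
  obtain ⟨Y, hY⟩ : ∃ Y, Y = N / (Q + 1) := ⟨_, rfl⟩
  have hN : ∀ D ∈ F, D.natAbs ≤ N := fun D hD => (hF D hD).1
  have hF' : ∀ D ∈ F, ∃ (x σ₁ σ₂ σ₃ : ℤ) (c₁ c₂ c₃ d₁ d₂ d₃ : ℕ) (m : ℤ)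
      (x₁ x₂ x₃ : ℕ), Data e₁ e₂ e₃ D x σ₁ σ₂ σ₃ c₁ c₂ c₃ d₁ d₂ d₃ m x₁ x₂ x₃ ∧ x₁ ≤ B ∧ x₂ ≤ B ∧
      Q < d₃ := fun D hD => (hF D hD).2
  choose! x s1 s2 s3 c1 c2 c3 d1 d2 d3 m x1 x2 x3 H using hF'
  obtain ⟨f, hf⟩ : ∃ f : ℤ → ((ℤ × ℤ × ℤ) × (ℕ × ℕ × ℕ)) × (ℕ × ℕ × ℕ), f = fun D =>
    (((s1 D, s2 D, (m D).sign), (c1 D, c2 D, c3 D)), (d1 D, d2 D, (m D).natAbs)) := ⟨_, rfl⟩
  obtain ⟨T, hT⟩ : ∃ T : Finset (((ℤ × ℤ × ℤ) × (ℕ × ℕ × ℕ)) × (ℕ × ℕ × ℕ)),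
    T = ((Sg ×ˢ (Sg ×ˢ Sg)) ×ˢ (Icc 1 E ×ˢ (Icc 1 E ×ˢ Icc 1 E))) ×ˢ W Y := ⟨_, rfl⟩
  have cle : ∀ {c : ℕ} {e : ℤ}, (c : ℤ) ∣ e → e ≠ 0 → e.natAbs ≤ E → c ≤ E := by
    intro c e h1 h2 h3
    exact (Nat.le_of_dvd (Int.natAbs_pos.2 h2) (Int.natCast_dvd.1 h1)).trans h3
  have maps : ∀ D ∈ F, f D ∈ T := by
    intro D hD
    obtain ⟨h, -, -, hQ⟩ := H D hD
    obtain ⟨u1, u2, u3, u4, u5, u6, u7⟩ := h.pos
    rw [hf, hT]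
    simp only [mem_product, mem_Sg, mem_Icc, mem_W]
    refine ⟨⟨⟨h.s1, h.s2, ?_⟩, ⟨u1, cle h.c1 (sub_ne_zero.2 h23.symm) hE1⟩,
      ⟨u2, cle h.c2 (sub_ne_zero.2 h13.symm) hE2⟩, ⟨u3, cle h.c3 (sub_ne_zero.2 h12.symm) hE3⟩⟩,
      u4, u5, u7, ?_⟩
    · have := h.sqm.ne_zero
      rcases lt_or_gt_of_ne this with h1 | h1
      · right; exact Int.sign_eq_neg_one_of_neg h1
      · left; exact Int.sign_eq_one_of_pos h1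
    · rw [hY, Nat.le_div_iff_mul_le (by omega)]
      calc d1 D * d2 D * (m D).natAbs * (Q + 1) ≤ d1 D * d2 D * (m D).natAbs * d3 D :=
            Nat.mul_le_mul_left _ hQ
        _ = d1 D * d2 D * d3 D * (m D).natAbs := by ring
        _ = D.natAbs := h.absD.symm
        _ ≤ N := hN D hD
  have key : ∀ b ∈ T, (F.filter (fun D => f D = b)).card ≤
      b.2.2.2.divisors.card * ((Nat.log 2 B + 1) * (E ^ 2 + 1)) ^ 2 := by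
    intro b hb
    rcases (F.filter (fun D => f D = b)).eq_empty_or_nonempty with h0 | ⟨D0, hD0⟩
    · rw [h0]; simp
    rw [mem_filter] at hD0
    obtain ⟨hD0, hb0⟩ := hD0
    have same : ∀ D ∈ F, f D = b → s1 D = s1 D0 ∧ s2 D = s2 D0 ∧ m D = m D0 ∧ c1 D = c1 D0 ∧
        c2 D = c2 D0 ∧ c3 D = c3 D0 ∧ d1 D = d1 D0 ∧ d2 D = d2 D0 := by
      intro D hD hDb
      have h1 : f D = f D0 := by rw [hDb, hb0]
      rw [hf] at h1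
      simp only [Prod.mk.injEq] at h1
      obtain ⟨⟨⟨g1, g2, g3⟩, g4, g5, g6⟩, g7, g8, g9⟩ := h1
      refine ⟨g1, g2, ?_, g4, g5, g6, g7, g8⟩
      rw [← Int.sign_mul_natAbs (m D), ← Int.sign_mul_natAbs (m D0), g3, g9]
    have inj : Set.InjOn (fun D => (x1 D, x2 D)) (F.filter (fun D => f D = b) : Set ℤ) := by
      intro D hD D' hD' hxx
      rw [mem_coe, mem_filter] at hD hD'
      simp only [Prod.mk.injEq] at hxx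
      obtain ⟨g1, g2, g3, g4, g5, g6, g7, g8⟩ := same D hD.1 hD.2
      obtain ⟨k1, k2, k3, k4, k5, k6, k7, k8⟩ := same D' hD'.1 hD'.2
      obtain ⟨h, -, -, -⟩ := H D hD.1
      obtain ⟨h', -, -, -⟩ := H D' hD'.1
      have i1 := h.pnt.2.2.2.2
      have i2 := h'.pnt.2.2.2.2
      have i3 : s3 D * (c1 D * c2 D * d3 D : ℕ) * (x3 D : ℤ) ^ 2 =
          s3 D' * (c1 D' * c2 D' * d3 D' : ℕ) * (x3 D' : ℤ) ^ 2 := by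
        have j1 : s1 D * (c2 D * c3 D * d1 D : ℕ) * (x1 D : ℤ) ^ 2 =
            s1 D' * (c2 D' * c3 D' * d1 D' : ℕ) * (x1 D' : ℤ) ^ 2 := by
          rw [g1, g5, g6, g7, k1, k5, k6, k7, hxx.1]
        have j2 : m D = m D' := by rw [g3, k3]
        rw [j1, j2] at i1
        linarith
      have i4 : (c1 D * c2 D * d3 D) * (x3 D) ^ 2 = (c1 D' * c2 D' * d3 D') * (x3 D') ^ 2 :=
        nat_of_eq h.s3 h'.s3 i3
      have i5 : c1 D * c2 D * d3 D = c1 D' * c2 D' * d3 D' :=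
        sqf_unique h.q3 h'.q3 h.p3.ne' h'.p3.ne' i4
      have i6 : d3 D = d3 D' := by
        rw [g4, g5, k4, k5] at i5
        obtain ⟨u1, u2, -⟩ := (H D0 hD0).1.pos
        exact Nat.eq_of_mul_eq_mul_left (Nat.mul_pos u1 u2) i5
      rw [h.hD, h'.hD, i6, g7, g8, k7, k8, g3, k3]
    rw [← Finset.card_image_of_injOn inj]
    obtain ⟨h0, -, -, -⟩ := H D0 hD0
    obtain ⟨u1, u2, u3, u4, u5, u6, u7⟩ := h0.pos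
    have hbm : b.2.2.2 = (m D0).natAbs := by rw [← hb0, hf]
    rw [hbm]
    have hs1 : s1 D0 ≠ 0 := by rcases h0.s1 with h | h <;> rw [h] <;> norm_num
    have hs2 : s2 D0 ≠ 0 := by rcases h0.s2 with h | h <;> rw [h] <;> norm_num
    apply card_sol (a := s1 D0 * (c2 D0 * c3 D0 * d1 D0 : ℕ)) (b := s2 D0 * (c1 D0 * c3 D0 * d2 D0 : ℕ))
      (e := e₂ - e₁) (m := m D0) (E := E) (B := B) (mul_ne_zero hs1 (by positivity))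
      (mul_ne_zero hs2 (by positivity)) (sub_ne_zero.2 h12.symm) hE3 h0.sqm
    · rw [sg_natAbs h0.s1]
      exact h0.r1
    · intro s hs
      rw [mem_image] at hs
      obtain ⟨D, hD, rfl⟩ := hs
      rw [mem_filter] at hD
      obtain ⟨g1, g2, g3, g4, g5, g6, g7, g8⟩ := same D hD.1 hD.2
      obtain ⟨h, b1, b2, -⟩ := H D hD.1
      refine ⟨h.p1, b1, h.p2, b2, ?_⟩
      have := h.pnt.2.2.2.1
      rw [g1, g2, g3, g4, g5, g6, g7, g8] at this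
      exact this
  have total : F.card ≤ ∑ b ∈ T, b.2.2.2.divisors.card * ((Nat.log 2 B + 1) * (E ^ 2 + 1)) ^ 2 := by
    rw [Finset.card_eq_sum_card_fiberwise (f := f) (t := T) maps]
    exact Finset.sum_le_sum key
  have total' : (F.card : ℝ) ≤ ∑ b ∈ T, (b.2.2.2.divisors.card : ℝ) *
      (((Nat.log 2 B + 1) * (E ^ 2 + 1) : ℕ) : ℝ) ^ 2 := by
    have := (Nat.cast_le (α := ℝ)).2 total
    refine this.trans (le_of_eq ?_)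
    push_cast
    rfl
  refine total'.trans ?_
  rw [hT, Finset.sum_product]
  have hc : (((Sg ×ˢ (Sg ×ˢ Sg)) ×ˢ (Icc 1 E ×ˢ (Icc 1 E ×ˢ Icc 1 E))).card : ℝ) = 8 * E ^ 3 := by
    rw [card_product, card_product, card_product, card_product, card_product, card_Sg,
      Nat.card_Icc]
    push_cast
    ring
  have h1 : ∀ p ∈ (Sg ×ˢ (Sg ×ˢ Sg)) ×ˢ (Icc 1 E ×ˢ (Icc 1 E ×ˢ Icc 1 E)),
      (∑ w ∈ W Y, (((p, w) : ((ℤ × ℤ × ℤ) × (ℕ × ℕ × ℕ)) × (ℕ × ℕ × ℕ)).2.2.2.divisors.card : ℝ) *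
        (((Nat.log 2 B + 1) * (E ^ 2 + 1) : ℕ) : ℝ) ^ 2) ≤
      (Y * (1 + Real.log Y) ^ 3) * (((Nat.log 2 B + 1) * (E ^ 2 + 1) : ℕ) : ℝ) ^ 2 := by
    intro p _
    rw [← Finset.sum_mul]
    exact mul_le_mul_of_nonneg_right (sum_W Y) (by positivity)
  refine (Finset.sum_le_sum h1).trans ?_
  rw [Finset.sum_const, nsmul_eq_mul, hc, hY]
  exact le_of_eq (by ring)

/-- the family of the `D` with small `d₁, d₂, d₃` -/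
theorem famB {E N Q B r : ℕ} (h12 : e₁ ≠ e₂) (h13 : e₁ ≠ e₃) (h23 : e₂ ≠ e₃)
    (hE3 : (e₂ - e₁).natAbs ≤ E) (hE2 : (e₃ - e₁).natAbs ≤ E) (hE1 : (e₃ - e₂).natAbs ≤ E)
    (hr0 : 0 < r) (hr : 2 * E ^ 3 * Q ≤ r ^ 2)
    (F : Finset ℤ) (hF : ∀ D ∈ F, D.natAbs ≤ N ∧ ∃ (x σ₁ σ₂ σ₃ : ℤ) (c₁ c₂ c₃ d₁ d₂ d₃ : ℕ) (m : ℤ)
      (x₁ x₂ x₃ : ℕ), Data e₁ e₂ e₃ D x σ₁ σ₂ σ₃ c₁ c₂ c₃ d₁ d₂ d₃ m x₁ x₂ x₃ ∧
      (x₁ ≤ B ∧ x₂ ≤ B ∧ x₃ ≤ B) ∧ d₁ ≤ Q ∧ d₂ ≤ Q ∧ d₃ ≤ Q) :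
    (F.card : ℝ) ≤ 8 * E ^ 3 * (10 * r * √(E : ℝ) * √(N : ℝ) * (2 * √(Q : ℝ)) ^ 3) *
      (2 * ((Nat.log 2 B + 1 : ℕ) : ℝ) ^ 2) := by
  classical
  have hN : ∀ D ∈ F, D.natAbs ≤ N := fun D hD => (hF D hD).1
  have hF' : ∀ D ∈ F, ∃ (x σ₁ σ₂ σ₃ : ℤ) (c₁ c₂ c₃ d₁ d₂ d₃ : ℕ) (m : ℤ)
      (x₁ x₂ x₃ : ℕ), Data e₁ e₂ e₃ D x σ₁ σ₂ σ₃ c₁ c₂ c₃ d₁ d₂ d₃ m x₁ x₂ x₃ ∧
      (x₁ ≤ B ∧ x₂ ≤ B ∧ x₃ ≤ B) ∧ d₁ ≤ Q ∧ d₂ ≤ Q ∧ d₃ ≤ Q := fun D hD => (hF D hD).2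
  choose! x s1 s2 s3 c1 c2 c3 d1 d2 d3 m x1 x2 x3 H using hF'
  obtain ⟨f, hf⟩ : ∃ f : ℤ → ((ℤ × ℤ × ℤ) × (ℕ × ℕ × ℕ)) × (ℕ × ℕ × ℕ), f = fun D =>
    (((s1 D, s2 D, s3 D), (c1 D, c2 D, c3 D)), (d1 D, d2 D, d3 D)) := ⟨_, rfl⟩
  obtain ⟨T, hT⟩ : ∃ T : Finset (((ℤ × ℤ × ℤ) × (ℕ × ℕ × ℕ)) × (ℕ × ℕ × ℕ)),
    T = ((Sg ×ˢ (Sg ×ˢ Sg)) ×ˢ (Icc 1 E ×ˢ (Icc 1 E ×ˢ Icc 1 E))) ×ˢ
      (Icc 1 Q ×ˢ (Icc 1 Q ×ˢ Icc 1 Q)) := ⟨_, rfl⟩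
  have cle : ∀ {c : ℕ} {e : ℤ}, (c : ℤ) ∣ e → e ≠ 0 → e.natAbs ≤ E → c ≤ E := by
    intro c e h1 h2 h3
    exact (Nat.le_of_dvd (Int.natAbs_pos.2 h2) (Int.natCast_dvd.1 h1)).trans h3
  have maps : ∀ D ∈ F, f D ∈ T := by
    intro D hD
    obtain ⟨h, -, q1, q2, q3⟩ := H D hD
    obtain ⟨u1, u2, u3, u4, u5, u6, u7⟩ := h.pos
    rw [hf, hT]
    simp only [mem_product, mem_Sg, mem_Icc]
    exact ⟨⟨⟨h.s1, h.s2, h.s3⟩, ⟨u1, cle h.c1 (sub_ne_zero.2 h23.symm) hE1⟩,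
      ⟨u2, cle h.c2 (sub_ne_zero.2 h13.symm) hE2⟩, ⟨u3, cle h.c3 (sub_ne_zero.2 h12.symm) hE3⟩⟩,
      ⟨u4, q1⟩, ⟨u5, q2⟩, ⟨u6, q3⟩⟩
  have key : ∀ b ∈ T, ((F.filter (fun D => f D = b)).card : ℝ) ≤
      10 * r * √(E : ℝ) * √(N : ℝ) * ((1 / √(b.2.1 : ℝ)) * ((1 / √(b.2.2.1 : ℝ)) *
        (1 / √(b.2.2.2 : ℝ)))) * (2 * ((Nat.log 2 B + 1 : ℕ) : ℝ) ^ 2) := by
    intro b hb
    rcases (F.filter (fun D => f D = b)).eq_empty_or_nonempty with h0 | ⟨D0, hD0⟩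
    · rw [h0, card_empty, Nat.cast_zero]; positivity
    rw [mem_filter] at hD0
    obtain ⟨hD0, hb0⟩ := hD0
    have same : ∀ D ∈ F, f D = b → s1 D = s1 D0 ∧ s2 D = s2 D0 ∧ s3 D = s3 D0 ∧ c1 D = c1 D0 ∧
        c2 D = c2 D0 ∧ c3 D = c3 D0 ∧ d1 D = d1 D0 ∧ d2 D = d2 D0 ∧ d3 D = d3 D0 := by
      intro D hD hDb
      have h1 : f D = f D0 := by rw [hDb, hb0]
      rw [hf] at h1
      simp only [Prod.mk.injEq] at h1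
      obtain ⟨⟨⟨g1, g2, g3⟩, g4, g5, g6⟩, g7, g8, g9⟩ := h1
      exact ⟨g1, g2, g3, g4, g5, g6, g7, g8, g9⟩
    have inj : Set.InjOn m (F.filter (fun D => f D = b) : Set ℤ) := by
      intro D hD D' hD' hxx
      rw [mem_coe, mem_filter] at hD hD'
      obtain ⟨g1, g2, g3, g4, g5, g6, g7, g8, g9⟩ := same D hD.1 hD.2
      obtain ⟨k1, k2, k3, k4, k5, k6, k7, k8, k9⟩ := same D' hD'.1 hD'.2
      rw [(H D hD.1).1.hD, (H D' hD'.1).1.hD, g7, g8, g9, k7, k8, k9, hxx]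
    rw [← Finset.card_image_of_injOn inj]
    obtain ⟨h0, -, q1, q2, q3⟩ := H D0 hD0
    obtain ⟨u1, u2, u3, u4, u5, u6, u7⟩ := h0.pos
    have hb1 : b.2.1 = d1 D0 := by rw [← hb0, hf]
    have hb2 : b.2.2.1 = d2 D0 := by rw [← hb0, hf]
    have hb3 : b.2.2.2 = d3 D0 := by rw [← hb0, hf]
    rw [hb1, hb2, hb3]
    have hs1 : s1 D0 ≠ 0 := by rcases h0.s1 with h | h <;> rw [h] <;> norm_num
    have hs2 : s2 D0 ≠ 0 := by rcases h0.s2 with h | h <;> rw [h] <;> norm_num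
    have hs3 : s3 D0 ≠ 0 := by rcases h0.s3 with h | h <;> rw [h] <;> norm_num
    have cE1 : c1 D0 ≤ E := cle h0.c1 (sub_ne_zero.2 h23.symm) hE1
    have cE2 : c2 D0 ≤ E := cle h0.c2 (sub_ne_zero.2 h13.symm) hE2
    have cE3 : c3 D0 ≤ E := cle h0.c3 (sub_ne_zero.2 h12.symm) hE3
    have hE1' : 1 ≤ E := lt_of_lt_of_le u1 cE1
    obtain ⟨P, hP⟩ : ∃ P, P = d1 D0 * d2 D0 * d3 D0 := ⟨_, rfl⟩
    have hPp : 0 < P := by rw [hP]; positivity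
    obtain ⟨N', hN'⟩ : ∃ N', N' = N / P := ⟨_, rfl⟩
    obtain ⟨s, hs⟩ : ∃ s, s = Nat.sqrt (E * N') + 1 := ⟨_, rfl⟩
    have hs' : E * N' ≤ s ^ 2 := by
      rw [hs, pow_two]
      exact (Nat.lt_succ_sqrt _).le
    have hmN : ∀ D ∈ F, f D = b → (m D).natAbs ≤ N' := by
      intro D hD hDb
      obtain ⟨g1, g2, g3, g4, g5, g6, g7, g8, g9⟩ := same D hD hDb
      rw [hN', Nat.le_div_iff_mul_le hPp, hP, ← g7, ← g8, ← g9]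
      have h1 := (H D hD).1.absD
      have h2 := hN D hD
      calc (m D).natAbs * (d1 D * d2 D * d3 D) = d1 D * d2 D * d3 D * (m D).natAbs := by ring
        _ = D.natAbs := h1.symm
        _ ≤ N := h2
    have hN'1 : 1 ≤ N' := lt_of_lt_of_le u7 (hmN D0 hD0 hb0)
    have hcard : ((F.filter (fun D => f D = b)).image m).card ≤
        (4 * r * s + 1) * (2 * (Nat.log 2 B + 1) ^ 2) := by
      have eabs : ∀ (e : ℤ), e.natAbs ≤ E → |e| ≤ E := by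
        intro e he
        rw [Int.abs_eq_natAbs]
        exact_mod_cast he
      have aabs : ∀ (σ : ℤ) (a b c : ℕ), (σ = 1 ∨ σ = -1) → a ≤ E → b ≤ E → c ≤ Q →
          ∀ e : ℤ, |e| ≤ E → |σ * (a * b * c : ℕ) * e| ≤ (E : ℤ) ^ 3 * Q := by
        intro σ a b c hσ ha hb hc e he
        have h1 : |σ| = 1 := by rcases hσ with h | h <;> rw [h] <;> norm_num
        have h2 : a * b * c ≤ E * E * Q := Nat.mul_le_mul (Nat.mul_le_mul ha hb) hc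
        have h3 : ((a * b * c : ℕ) : ℤ) ≤ E * E * Q := by exact_mod_cast h2
        rw [abs_mul, abs_mul, h1, one_mul, abs_of_nonneg (by positivity)]
        calc ((a * b * c : ℕ) : ℤ) * |e| ≤ (E * E * Q) * E :=
              mul_le_mul h3 he (abs_nonneg _) (by positivity)
          _ = _ := by ring
      apply count_B (a₁ := s1 D0 * (c2 D0 * c3 D0 * d1 D0 : ℕ))
        (a₂ := s2 D0 * (c1 D0 * c3 D0 * d2 D0 : ℕ)) (a₃ := s3 D0 * (c1 D0 * c2 D0 * d3 D0 : ℕ))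
        (mul_ne_zero hs1 (by positivity)) (mul_ne_zero hs2 (by positivity))
        (mul_ne_zero hs3 (by positivity)) h12 h13 h23 (eabs _ hE3) (eabs _ hE2) hr0 _ hs'
      · intro n hn
        rw [mem_image] at hn
        obtain ⟨D, hD, rfl⟩ := hn
        rw [mem_filter] at hD
        obtain ⟨g1, g2, g3, g4, g5, g6, g7, g8, g9⟩ := same D hD.1 hD.2
        obtain ⟨h, b1, -⟩ := H D hD.1
        refine ⟨h.sqm, ?_, (x1 D, x2 D, x3 D), ?_, b1⟩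
        · rw [Int.abs_eq_natAbs]
          exact_mod_cast hmN D hD.1 hD.2
        · have := h.pnt
          rw [g1, g2, g3, g4, g5, g6, g7, g8, g9] at this
          exact this
      · have t1 := aabs _ _ _ _ h0.s2 cE1 cE3 q2 (e₃ - e₁) (eabs _ hE2)
        have t2 := aabs _ _ _ _ h0.s3 cE1 cE2 q3 (e₁ - e₂) (by
          rw [← abs_neg, neg_sub]; exact eabs _ hE3)
        have t3 : ((2 * E ^ 3 * Q : ℕ) : ℤ) ≤ r ^ 2 := by exact_mod_cast hr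
        push_cast at t3
        linarith
    have hcard' := (Nat.cast_le (α := ℝ)).2 hcard
    refine hcard'.trans ?_
    push_cast
    have hL : (0 : ℝ) ≤ 2 * ((Nat.log 2 B : ℝ) + 1) ^ 2 := by positivity
    apply mul_le_mul_of_nonneg_right _ hL
    -- the size of `s`
    have hN'r : (N' : ℝ) ≤ N / P := by rw [hN']; exact Nat.cast_div_le
    have hs2 : (s : ℝ) ≤ 2 * √((E : ℝ) * N') := by
      have k1 : ((Nat.sqrt (E * N') : ℕ) : ℝ) ≤ √((E : ℝ) * N') := by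
        apply Real.le_sqrt_of_sq_le
        exact_mod_cast Nat.sqrt_le' (E * N')
      have k2 : (1 : ℝ) ≤ √((E : ℝ) * N') := by
        rw [Real.one_le_sqrt]
        exact_mod_cast Nat.mul_pos hE1' hN'1
      rw [hs]
      push_cast
      linarith
    have hs3 : √((E : ℝ) * N') ≤ √(E : ℝ) * √(N : ℝ) * ((1 / √(d1 D0 : ℝ)) * ((1 / √(d2 D0 : ℝ)) *
        (1 / √(d3 D0 : ℝ)))) := by
      have k1 : √((E : ℝ) * N') ≤ √((E : ℝ) * (N / P)) := by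
        apply Real.sqrt_le_sqrt
        exact mul_le_mul_of_nonneg_left hN'r (by positivity)
      refine k1.trans (le_of_eq ?_)
      rw [Real.sqrt_mul (by positivity), Real.sqrt_div (by positivity), hP]
      push_cast
      rw [Real.sqrt_mul (by positivity), Real.sqrt_mul (by positivity)]
      have p1 : 0 < √(d1 D0 : ℝ) := Real.sqrt_pos.2 (by exact_mod_cast u4)
      have p2 : 0 < √(d2 D0 : ℝ) := Real.sqrt_pos.2 (by exact_mod_cast u5)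
      have p3 : 0 < √(d3 D0 : ℝ) := Real.sqrt_pos.2 (by exact_mod_cast u6)
      field_simp
    have hr1 : (1 : ℝ) ≤ r := by exact_mod_cast hr0
    have hs0 : (1 : ℝ) ≤ s := by rw [hs]; push_cast; linarith [(Nat.cast_nonneg (α := ℝ) (Nat.sqrt (E * N')))]
    have hrs : (1 : ℝ) ≤ r * s := by nlinarith
    calc (4 : ℝ) * r * s + 1 ≤ 5 * (r * s) := by nlinarith
      _ ≤ 5 * (r * (2 * (√(E : ℝ) * √(N : ℝ) * ((1 / √(d1 D0 : ℝ)) * ((1 / √(d2 D0 : ℝ)) *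
        (1 / √(d3 D0 : ℝ))))))) := by
          apply mul_le_mul_of_nonneg_left _ (by norm_num)
          apply mul_le_mul_of_nonneg_left _ (by positivity)
          linarith
      _ = _ := by ring
  have total : (F.card : ℝ) ≤ ∑ b ∈ T, 10 * r * √(E : ℝ) * √(N : ℝ) * ((1 / √(b.2.1 : ℝ)) *
      ((1 / √(b.2.2.1 : ℝ)) * (1 / √(b.2.2.2 : ℝ)))) * (2 * ((Nat.log 2 B + 1 : ℕ) : ℝ) ^ 2) := by
    rw [Finset.card_eq_sum_card_fiberwise (f := f) (t := T) maps]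
    push_cast
    refine (Finset.sum_le_sum key).trans (le_of_eq ?_)
    push_cast
    rfl
  refine total.trans ?_
  rw [hT, Finset.sum_product]
  have hc : (((Sg ×ˢ (Sg ×ˢ Sg)) ×ˢ (Icc 1 E ×ˢ (Icc 1 E ×ˢ Icc 1 E))).card : ℝ) = 8 * E ^ 3 := by
    rw [card_product, card_product, card_product, card_product, card_product, card_Sg,
      Nat.card_Icc]
    push_cast
    ring
  obtain ⟨Z, hZ⟩ : ∃ Z, Z = ∑ d ∈ Icc 1 Q, (1 / √(d : ℝ)) := ⟨_, rfl⟩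
  have hZ0 : 0 ≤ Z := by rw [hZ]; exact Finset.sum_nonneg (fun _ _ => by positivity)
  have hZQ : Z ≤ 2 * √(Q : ℝ) := by rw [hZ]; exact sum_sqrt Q
  have h1 : ∀ p ∈ (Sg ×ˢ (Sg ×ˢ Sg)) ×ˢ (Icc 1 E ×ˢ (Icc 1 E ×ˢ Icc 1 E)),
      (∑ w ∈ Icc 1 Q ×ˢ (Icc 1 Q ×ˢ Icc 1 Q), 10 * r * √(E : ℝ) * √(N : ℝ) *
        ((1 / √((((p, w) : ((ℤ × ℤ × ℤ) × (ℕ × ℕ × ℕ)) × (ℕ × ℕ × ℕ)).2.1 : ℕ) : ℝ)) *
        ((1 / √((((p, w) : ((ℤ × ℤ × ℤ) × (ℕ × ℕ × ℕ)) × (ℕ × ℕ × ℕ)).2.2.1 : ℕ) : ℝ)) *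
        (1 / √((((p, w) : ((ℤ × ℤ × ℤ) × (ℕ × ℕ × ℕ)) × (ℕ × ℕ × ℕ)).2.2.2 : ℕ) : ℝ)))) *
        (2 * ((Nat.log 2 B + 1 : ℕ) : ℝ) ^ 2)) ≤
      10 * r * √(E : ℝ) * √(N : ℝ) * (2 * √(Q : ℝ)) ^ 3 * (2 * ((Nat.log 2 B + 1 : ℕ) : ℝ) ^ 2) := by
    intro p _
    rw [← Finset.sum_mul]
    apply mul_le_mul_of_nonneg_right _ (by positivity)
    rw [← Finset.mul_sum]
    apply mul_le_mul_of_nonneg_left _ (by positivity)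
    have e1 : (∑ w ∈ Icc 1 Q ×ˢ (Icc 1 Q ×ˢ Icc 1 Q),
        ((1 / √((w.1 : ℕ) : ℝ)) * ((1 / √((w.2.1 : ℕ) : ℝ)) * (1 / √((w.2.2 : ℕ) : ℝ))))) =
        Z * (Z * Z) := by
      rw [Finset.sum_product]
      simp only [Finset.sum_product]
      rw [hZ, Finset.sum_mul]
      refine Finset.sum_congr rfl fun a _ => ?_
      rw [Finset.sum_mul, Finset.mul_sum]
      refine Finset.sum_congr rfl fun b _ => ?_
      rw [← Finset.mul_sum, ← Finset.mul_sum]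
    refine (le_of_eq e1).trans ?_
    calc Z * (Z * Z) = Z ^ 3 := by ring
      _ ≤ (2 * √(Q : ℝ)) ^ 3 := pow_le_pow_left₀ hZ0 hZQ 3
  refine (Finset.sum_le_sum h1).trans ?_
  rw [Finset.sum_const, nsmul_eq_mul, hc]
  exact le_of_eq (by ring)

end Pool.Agent.H49TW
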