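import Pool.Agent.H49TW.Fam

/-!
# The number of the twists with a nontrivial integral point
-/

set_option autoImplicit false

namespace Pool.Agent.H49TW

open Finset

/-- the property of `D` -/
def Good (e₁ e₂ e₃ : ℤ) (N B : ℕ) (D : ℤ) : Prop :=
  Squarefree D ∧ D.natAbs ≤ N ∧ ∃ x y : ℤ, y ≠ 0 ∧ x.natAbs ≤ B ∧
    y ^ 2 = (x - e₁ * D) * (x - e₂ * D) * (x - e₃ * D)

theorem coord_le {x e D P s a : ℤ} {n z N B E : ℕ} (hx : x.natAbs ≤ B) (hD : D.natAbs ≤ N)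
    (he : e.natAbs ≤ E) (hP : 1 ≤ P) (hs : s = 1 ∨ s = -1) (hn : 0 < n) (ha : a = s * (n : ℤ))
    (h : x - e * D = P * (a * (z : ℤ) ^ 2)) : z ≤ B + E * N := by
  have h1 : (x - e * D).natAbs ≤ B + E * N := by
    refine (Int.natAbs_sub_le _ _).trans ?_
    rw [Int.natAbs_mul]
    exact Nat.add_le_add hx (Nat.mul_le_mul he hD)
  have h2 : (x - e * D).natAbs = P.natAbs * (n * z ^ 2) := by
    rw [h, Int.natAbs_mul]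
    congr 1
    rw [ha]
    have e2 : s * (n : ℤ) * (z : ℤ) ^ 2 = s * ((n * z ^ 2 : ℕ) : ℤ) := by push_cast; ring
    rw [e2, sg_natAbs hs]
  have h3 : 1 ≤ P.natAbs := by omega
  have h4 : z ≤ P.natAbs * (n * z ^ 2) := by
    calc z ≤ z ^ 2 := Nat.le_self_pow (by norm_num) z
      _ = 1 * (1 * z ^ 2) := by ring
      _ ≤ P.natAbs * (n * z ^ 2) := Nat.mul_le_mul h3 (Nat.mul_le_mul_right _ hn)
  omega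

theorem log_bound {n : ℕ} (hn : 1 ≤ n) : ((Nat.log 2 n + 1 : ℕ) : ℝ) ≤ 2 * (1 + Real.log n) := by
  have h1 : ((2 ^ Nat.log 2 n : ℕ) : ℝ) ≤ n := by
    exact_mod_cast Nat.pow_log_le_self 2 (by omega)
  have h2 := Real.log_le_log (by positivity) h1
  push_cast at h2
  rw [Real.log_pow] at h2
  have h3 : (1 / 2 : ℝ) ≤ Real.log 2 := by linarith [Real.log_two_gt_d9]
  have h4 : (0 : ℝ) ≤ Nat.log 2 n := by positivity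
  push_cast
  nlinarith

theorem count_le {e₁ e₂ e₃ : ℤ} (h12 : e₁ ≠ e₂) (h13 : e₁ ≠ e₃) (h23 : e₂ ≠ e₃) :
    ∃ C : ℝ, 0 < C ∧ ∀ N B : ℕ, 1 ≤ N → ∀ F : Finset ℤ, (∀ D ∈ F, Good e₁ e₂ e₃ N B D) →
      (F.card : ℝ) ≤ C * ((N : ℝ) ^ ((5 : ℝ) / 6) * (1 + Real.log N) ^ 3) *
        ((Nat.log 2 (B + (e₁.natAbs + e₂.natAbs + e₃.natAbs) * N) + 1 : ℕ) : ℝ) ^ 2 := by
  classical
  obtain ⟨E, hE⟩ : ∃ E, E = (e₂ - e₁).natAbs + (e₃ - e₁).natAbs + (e₃ - e₂).natAbs := ⟨_, rfl⟩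
  obtain ⟨E0, hE0⟩ : ∃ E0, E0 = e₁.natAbs + e₂.natAbs + e₃.natAbs := ⟨_, rfl⟩
  have hE1 : 1 ≤ E := by
    have : 0 < (e₂ - e₁).natAbs := Int.natAbs_pos.2 (sub_ne_zero.2 h12.symm)
    omega
  have k3 : (e₂ - e₁).natAbs ≤ E := by omega
  have k2 : (e₃ - e₁).natAbs ≤ E := by omega
  have k1 : (e₃ - e₂).natAbs ≤ E := by omega
  have k3' : (e₁ - e₂).natAbs ≤ E := by rw [← Int.natAbs_neg, neg_sub]; exact k3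
  have k2' : (e₁ - e₃).natAbs ≤ E := by rw [← Int.natAbs_neg, neg_sub]; exact k2
  have k1' : (e₂ - e₃).natAbs ≤ E := by rw [← Int.natAbs_neg, neg_sub]; exact k1
  rw [← hE0]
  refine ⟨3 * (8 * E ^ 3 * ((E : ℝ) ^ 2 + 1) ^ 2) +
    8 * E ^ 3 * (10 * (2 * √(2 * (E : ℝ) ^ 3)) * √(E : ℝ) * 8) * 2, by positivity, ?_⟩
  intro N B hN F hF
  obtain ⟨Q, hQ⟩ : ∃ Q, Q = ⌊(N : ℝ) ^ ((1 : ℝ) / 6)⌋₊ := ⟨_, rfl⟩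
  obtain ⟨B', hB'⟩ : ∃ B', B' = B + E0 * N := ⟨_, rfl⟩
  rw [← hB']
  have hN1 : (1 : ℝ) ≤ N := by exact_mod_cast hN
  have hN0 : (0 : ℝ) < N := by linarith
  have hQle : (Q : ℝ) ≤ (N : ℝ) ^ ((1 : ℝ) / 6) := by rw [hQ]; exact Nat.floor_le (by positivity)
  have hQlt : (N : ℝ) ^ ((1 : ℝ) / 6) < Q + 1 := by rw [hQ]; exact Nat.lt_floor_add_one _
  have hQ1 : 1 ≤ Q := by
    rw [hQ, Nat.one_le_floor_iff]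
    exact Real.one_le_rpow hN1 (by norm_num)
  have hLN : 0 ≤ Real.log N := Real.log_nonneg hN1
  -- the data
  have data : ∀ D ∈ F, D.natAbs ≤ N ∧ ∃ (x σ₁ σ₂ σ₃ : ℤ) (c₁ c₂ c₃ d₁ d₂ d₃ : ℕ) (m : ℤ)
      (x₁ x₂ x₃ : ℕ), Data e₁ e₂ e₃ D x σ₁ σ₂ σ₃ c₁ c₂ c₃ d₁ d₂ d₃ m x₁ x₂ x₃ ∧
      x₁ ≤ B' ∧ x₂ ≤ B' ∧ x₃ ≤ B' := by
    intro D hD
    obtain ⟨g1, g2, x, y, hy, hx, hxy⟩ := hF D hD
    obtain ⟨σ₁, σ₂, σ₃, c₁, c₂, c₃, d₁, d₂, d₃, m, x₁, x₂, x₃, h⟩ := exists_data g1 hy hxy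
    obtain ⟨u1, u2, u3, u4, u5, u6, u7⟩ := h.pos
    have hP : (1 : ℤ) ≤ (d₁ : ℤ) * d₂ * d₃ := by
      have : 1 ≤ d₁ * d₂ * d₃ := Nat.mul_pos (Nat.mul_pos u4 u5) u6
      exact_mod_cast this
    refine ⟨g2, x, σ₁, σ₂, σ₃, c₁, c₂, c₃, d₁, d₂, d₃, m, x₁, x₂, x₃, h, ?_, ?_, ?_⟩
    · rw [hB']
      exact coord_le hx g2 (by omega) hP h.s1 (Nat.mul_pos (Nat.mul_pos u2 u3) u4) rfl h.X1
    · rw [hB']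
      exact coord_le hx g2 (by omega) hP h.s2 (Nat.mul_pos (Nat.mul_pos u1 u3) u5) rfl h.X2
    · rw [hB']
      exact coord_le hx g2 (by omega) hP h.s3 (Nat.mul_pos (Nat.mul_pos u1 u2) u6) rfl h.X3
  -- the four parts
  obtain ⟨P3, hP3⟩ : ∃ P : ℤ → Prop, P = fun D => ∃ (x σ₁ σ₂ σ₃ : ℤ) (c₁ c₂ c₃ d₁ d₂ d₃ : ℕ) (m : ℤ)
      (x₁ x₂ x₃ : ℕ), Data e₁ e₂ e₃ D x σ₁ σ₂ σ₃ c₁ c₂ c₃ d₁ d₂ d₃ m x₁ x₂ x₃ ∧ x₁ ≤ B' ∧ x₂ ≤ B' ∧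
      Q < d₃ := ⟨_, rfl⟩
  obtain ⟨P2, hP2⟩ : ∃ P : ℤ → Prop, P = fun D => ∃ (x σ₁ σ₂ σ₃ : ℤ) (c₁ c₂ c₃ d₁ d₂ d₃ : ℕ) (m : ℤ)
      (x₁ x₂ x₃ : ℕ), Data e₁ e₃ e₂ D x σ₁ σ₂ σ₃ c₁ c₂ c₃ d₁ d₂ d₃ m x₁ x₂ x₃ ∧ x₁ ≤ B' ∧ x₂ ≤ B' ∧
      Q < d₃ := ⟨_, rfl⟩
  obtain ⟨P1, hP1⟩ : ∃ P : ℤ → Prop, P = fun D => ∃ (x σ₁ σ₂ σ₃ : ℤ) (c₁ c₂ c₃ d₁ d₂ d₃ : ℕ) (m : ℤ)
      (x₁ x₂ x₃ : ℕ), Data e₃ e₂ e₁ D x σ₁ σ₂ σ₃ c₁ c₂ c₃ d₁ d₂ d₃ m x₁ x₂ x₃ ∧ x₁ ≤ B' ∧ x₂ ≤ B' ∧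
      Q < d₃ := ⟨_, rfl⟩
  obtain ⟨P0, hP0⟩ : ∃ P : ℤ → Prop, P = fun D => ∃ (x σ₁ σ₂ σ₃ : ℤ) (c₁ c₂ c₃ d₁ d₂ d₃ : ℕ) (m : ℤ)
      (x₁ x₂ x₃ : ℕ), Data e₁ e₂ e₃ D x σ₁ σ₂ σ₃ c₁ c₂ c₃ d₁ d₂ d₃ m x₁ x₂ x₃ ∧
      (x₁ ≤ B' ∧ x₂ ≤ B' ∧ x₃ ≤ B') ∧ d₁ ≤ Q ∧ d₂ ≤ Q ∧ d₃ ≤ Q := ⟨_, rfl⟩
  have cover : F ⊆ ((F.filter P3 ∪ F.filter P2) ∪ F.filter P1) ∪ F.filter P0 := by
    intro D hD
    obtain ⟨-, x, σ₁, σ₂, σ₃, c₁, c₂, c₃, d₁, d₂, d₃, m, x₁, x₂, x₃, h, b1, b2, b3⟩ := data D hD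
    simp only [mem_union, mem_filter]
    by_cases q3 : Q < d₃
    · left; left; left
      refine ⟨hD, ?_⟩
      rw [hP3]
      exact ⟨x, σ₁, σ₂, σ₃, c₁, c₂, c₃, d₁, d₂, d₃, m, x₁, x₂, x₃, h, b1, b2, q3⟩
    by_cases q2 : Q < d₂
    · left; left; right
      refine ⟨hD, ?_⟩
      rw [hP2]
      exact ⟨x, _, _, _, _, _, _, _, _, _, m, _, _, _, h.swap23, b1, b3, q2⟩
    by_cases q1 : Q < d₁
    · left; right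
      refine ⟨hD, ?_⟩
      rw [hP1]
      exact ⟨x, _, _, _, _, _, _, _, _, _, m, _, _, _, h.swap13, b3, b2, q1⟩
    · right
      refine ⟨hD, ?_⟩
      rw [hP0]
      exact ⟨x, σ₁, σ₂, σ₃, c₁, c₂, c₃, d₁, d₂, d₃, m, x₁, x₂, x₃, h, ⟨b1, b2, b3⟩, by omega,
        by omega, by omega⟩
  obtain ⟨L, hL⟩ : ∃ L : ℝ, L = ((Nat.log 2 B' + 1 : ℕ) : ℝ) := ⟨_, rfl⟩
  have hL0 : 0 ≤ L := by rw [hL]; positivity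
  obtain ⟨G, hG⟩ : ∃ G, G = (N : ℝ) ^ ((5 : ℝ) / 6) * (1 + Real.log N) ^ 3 := ⟨_, rfl⟩
  have hG0 : 0 ≤ G := by rw [hG]; positivity
  -- the bounds
  have hY : ((N / (Q + 1) : ℕ) : ℝ) * (1 + Real.log ((N / (Q + 1) : ℕ) : ℝ)) ^ 3 ≤ G := by
    rcases Nat.eq_zero_or_pos (N / (Q + 1)) with h0 | hp
    · rw [h0, Nat.cast_zero, zero_mul]; exact hG0
    · have a1 : ((N / (Q + 1) : ℕ) : ℝ) ≤ (N : ℝ) ^ ((5 : ℝ) / 6) := by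
        have := @Nat.cast_div_le ℝ _ _ _ N (Q + 1)
        push_cast at this
        refine this.trans ?_
        rw [div_le_iff₀ (by positivity)]
        calc (N : ℝ) = (N : ℝ) ^ ((5 : ℝ) / 6) * (N : ℝ) ^ ((1 : ℝ) / 6) := by
              rw [← Real.rpow_add hN0]; norm_num
          _ ≤ (N : ℝ) ^ ((5 : ℝ) / 6) * (Q + 1) := mul_le_mul_of_nonneg_left hQlt.le (by positivity)
      have a2 : 1 + Real.log ((N / (Q + 1) : ℕ) : ℝ) ≤ 1 + Real.log N := harm_le hp (Nat.div_le_self _ _)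
      have a3 : 0 ≤ 1 + Real.log ((N / (Q + 1) : ℕ) : ℝ) := by
        have := Real.log_nonneg (show (1 : ℝ) ≤ ((N / (Q + 1) : ℕ) : ℝ) by exact_mod_cast hp)
        linarith
      rw [hG]
      exact mul_le_mul a1 (pow_le_pow_left₀ a3 a2 3) (by positivity) (by positivity)
  have partA : ∀ {f₁ f₂ f₃ : ℤ} (P : ℤ → Prop), f₁ ≠ f₂ → f₁ ≠ f₃ → f₂ ≠ f₃ →
      (f₂ - f₁).natAbs ≤ E → (f₃ - f₁).natAbs ≤ E → (f₃ - f₂).natAbs ≤ E →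
      (P = fun D => ∃ (x σ₁ σ₂ σ₃ : ℤ) (c₁ c₂ c₃ d₁ d₂ d₃ : ℕ) (m : ℤ)
      (x₁ x₂ x₃ : ℕ), Data f₁ f₂ f₃ D x σ₁ σ₂ σ₃ c₁ c₂ c₃ d₁ d₂ d₃ m x₁ x₂ x₃ ∧ x₁ ≤ B' ∧ x₂ ≤ B' ∧
      Q < d₃) → ((F.filter P).card : ℝ) ≤ 8 * E ^ 3 * ((E : ℝ) ^ 2 + 1) ^ 2 * G * L ^ 2 := by
    intro f₁ f₂ f₃ P g12 g13 g23 j3 j2 j1 hP
    have h1 := famA (E := E) (N := N) (Q := Q) (B := B') g12 g13 g23 j3 j2 j1 (F.filter P) (by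
      intro D hD
      rw [mem_filter] at hD
      refine ⟨(data D hD.1).1, ?_⟩
      have := hD.2
      rw [hP] at this
      exact this)
    refine h1.trans ?_
    have e1 : (((Nat.log 2 B' + 1) * (E ^ 2 + 1) : ℕ) : ℝ) ^ 2 = ((E : ℝ) ^ 2 + 1) ^ 2 * L ^ 2 := by
      rw [hL]; push_cast; ring
    rw [e1]
    calc (8 : ℝ) * E ^ 3 * (((N / (Q + 1) : ℕ) : ℝ) * (1 + Real.log ((N / (Q + 1) : ℕ) : ℝ)) ^ 3) *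
          (((E : ℝ) ^ 2 + 1) ^ 2 * L ^ 2) ≤ 8 * E ^ 3 * G * (((E : ℝ) ^ 2 + 1) ^ 2 * L ^ 2) := by
          apply mul_le_mul_of_nonneg_right _ (by positivity)
          exact mul_le_mul_of_nonneg_left hY (by positivity)
      _ = _ := by ring
  have b3 := partA P3 h12 h13 h23 k3 k2 k1 hP3
  have b2 := partA P2 h13 h12 h23.symm k2 k3 k1' hP2
  have b1 := partA P1 h23.symm h13.symm h12.symm k1' k2' k3' hP1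
  have b0 : ((F.filter P0).card : ℝ) ≤
      8 * E ^ 3 * (10 * (2 * √(2 * (E : ℝ) ^ 3)) * √(E : ℝ) * 8) * 2 * G * L ^ 2 := by
    obtain ⟨r, hr⟩ : ∃ r, r = Nat.sqrt (2 * E ^ 3 * Q) + 1 := ⟨_, rfl⟩
    have hr2 : 2 * E ^ 3 * Q ≤ r ^ 2 := by
      rw [hr]
      calc 2 * E ^ 3 * Q ≤ (Nat.sqrt (2 * E ^ 3 * Q) + 1) * (Nat.sqrt (2 * E ^ 3 * Q) + 1) :=
            (Nat.lt_succ_sqrt _).le
        _ = _ := by ring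
    have h1 := famB (E := E) (N := N) (Q := Q) (B := B') (r := r) h12 h13 h23 k3 k2 k1
      (by omega) hr2 (F.filter P0) (by
      intro D hD
      rw [mem_filter] at hD
      refine ⟨(data D hD.1).1, ?_⟩
      have := hD.2
      rw [hP0] at this
      exact this)
    refine h1.trans ?_
    have hrle : (r : ℝ) ≤ 2 * √(2 * (E : ℝ) ^ 3) * √(Q : ℝ) := by
      have a1 : ((Nat.sqrt (2 * E ^ 3 * Q) : ℕ) : ℝ) ≤ √(2 * (E : ℝ) ^ 3 * Q) := by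
        apply Real.le_sqrt_of_sq_le
        exact_mod_cast Nat.sqrt_le' (2 * E ^ 3 * Q)
      have a2 : (1 : ℝ) ≤ √(2 * (E : ℝ) ^ 3 * Q) := by
        rw [Real.one_le_sqrt]
        have : 1 ≤ 2 * E ^ 3 * Q := Nat.mul_pos (by positivity) hQ1
        exact_mod_cast this
      rw [Real.sqrt_mul (by positivity)] at a1 a2
      rw [hr]
      push_cast
      linarith
    have hQQ : √(Q : ℝ) * (2 * √(Q : ℝ)) ^ 3 = 8 * (Q : ℝ) ^ 2 := by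
      have : √(Q : ℝ) ^ 2 = Q := Real.sq_sqrt (by positivity)
      calc √(Q : ℝ) * (2 * √(Q : ℝ)) ^ 3 = 8 * (√(Q : ℝ) ^ 2) ^ 2 := by ring
        _ = _ := by rw [this]
    have hQN : (Q : ℝ) ^ 2 * √(N : ℝ) ≤ G := by
      have a1 : (Q : ℝ) ^ 2 ≤ (N : ℝ) ^ ((1 : ℝ) / 3) := by
        calc (Q : ℝ) ^ 2 ≤ ((N : ℝ) ^ ((1 : ℝ) / 6)) ^ 2 := pow_le_pow_left₀ (by positivity) hQle 2
          _ = _ := by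
            rw [← Real.rpow_natCast, ← Real.rpow_mul hN0.le]; norm_num
      have a2 : √(N : ℝ) = (N : ℝ) ^ ((1 : ℝ) / 2) := Real.sqrt_eq_rpow _
      have a3 : (1 : ℝ) ≤ (1 + Real.log N) ^ 3 := one_le_pow₀ (by linarith)
      rw [a2, hG]
      calc (Q : ℝ) ^ 2 * (N : ℝ) ^ ((1 : ℝ) / 2) ≤ (N : ℝ) ^ ((1 : ℝ) / 3) * (N : ℝ) ^ ((1 : ℝ) / 2) :=
            mul_le_mul_of_nonneg_right a1 (by positivity)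
        _ = (N : ℝ) ^ ((5 : ℝ) / 6) * 1 := by rw [← Real.rpow_add hN0]; norm_num
        _ ≤ _ := mul_le_mul_of_nonneg_left a3 (by positivity)
    rw [← hL]
    calc (8 : ℝ) * E ^ 3 * (10 * r * √(E : ℝ) * √(N : ℝ) * (2 * √(Q : ℝ)) ^ 3) * (2 * L ^ 2) ≤
          8 * E ^ 3 * (10 * (2 * √(2 * (E : ℝ) ^ 3) * √(Q : ℝ)) * √(E : ℝ) * √(N : ℝ) *
            (2 * √(Q : ℝ)) ^ 3) * (2 * L ^ 2) := by gcongr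
      _ = 8 * E ^ 3 * (10 * (2 * √(2 * (E : ℝ) ^ 3)) * √(E : ℝ) *
            (√(Q : ℝ) * (2 * √(Q : ℝ)) ^ 3) * √(N : ℝ)) * (2 * L ^ 2) := by ring
      _ = 8 * E ^ 3 * (10 * (2 * √(2 * (E : ℝ) ^ 3)) * √(E : ℝ) * 8) * 2 * ((Q : ℝ) ^ 2 * √(N : ℝ)) *
            L ^ 2 := by rw [hQQ]; ring
      _ ≤ _ := by gcongr
  have hcard : (F.card : ℝ) ≤ ((F.filter P3).card : ℝ) + (F.filter P2).card + (F.filter P1).card +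
      (F.filter P0).card := by
    have c1 := card_le_card cover
    have c2 := card_union_le ((F.filter P3 ∪ F.filter P2) ∪ F.filter P1) (F.filter P0)
    have c3 := card_union_le (F.filter P3 ∪ F.filter P2) (F.filter P1)
    have c4 := card_union_le (F.filter P3) (F.filter P2)
    have : F.card ≤ (F.filter P3).card + (F.filter P2).card + (F.filter P1).card +
      (F.filter P0).card := by omega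
    exact_mod_cast this
  rw [← hG, ← hL]
  have e1 : (3 * (8 * (E : ℝ) ^ 3 * ((E : ℝ) ^ 2 + 1) ^ 2) +
      8 * E ^ 3 * (10 * (2 * √(2 * (E : ℝ) ^ 3)) * √(E : ℝ) * 8) * 2) * G * L ^ 2 =
      8 * E ^ 3 * ((E : ℝ) ^ 2 + 1) ^ 2 * G * L ^ 2 + 8 * E ^ 3 * ((E : ℝ) ^ 2 + 1) ^ 2 * G * L ^ 2 +
      8 * E ^ 3 * ((E : ℝ) ^ 2 + 1) ^ 2 * G * L ^ 2 +
      8 * E ^ 3 * (10 * (2 * √(2 * (E : ℝ) ^ 3)) * √(E : ℝ) * 8) * 2 * G * L ^ 2 := by ring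
  rw [e1]
  linarith

end Pool.Agent.H49TW
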